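import Mathlib

set_option autoImplicit false

namespace Pool.Agent.L0h67.TT

open Finset

variable {X : Type}

/-- A literal `(x, true)` is the variable `x`, a literal `(x, false)` is its negation; a clause is a
finite set of literals. -/
abbrev Clause (X : Type) : Type := Finset (X × Bool)

/-- Derivations by resolution from the set of clauses `F` in which only clauses of the set `S`
occur. The clause `C` follows from `A` and `B` if it contains all literals of `A` other than `x` and
all literals of `B` other than the negation of `x`. -/
inductive Der [DecidableEq X] (F : Set (Clause X)) (S : Finset (Clause X)) : Clause X → Prop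
  | ax (C : Clause X) (h1 : C ∈ F) (h2 : C ∈ S) : Der F S C
  | res (A B C : Clause X) (x : X) (hA : Der F S A) (hB : Der F S B)
      (h1 : A ⊆ insert (x, true) C) (h2 : B ⊆ insert (x, false) C) (h3 : C ∈ S) : Der F S C

/-- Winning strategies for the Boolean game. -/
structure Strat [Fintype X] (F : Set (Clause X)) (Y : Finset X) (w : ℕ)
    (H : Set (X → Option Bool)) : Prop where
  nonempty : H.Nonempty
  small : ∀ h ∈ H, (univ.filter fun x => h x ≠ none).card ≤ w
  live : ∀ h ∈ H, ∀ x, h x ≠ none → x ∈ Y
  sound : ∀ h ∈ H, ∀ C ∈ F, ¬ ∀ l ∈ C, h l.1 = some (!l.2)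
  restrict : ∀ h ∈ H, ∀ h', (∀ x, h' x = none ∨ h' x = h x) → h' ∈ H
  extend : ∀ h ∈ H, (univ.filter fun x => h x ≠ none).card < w → ∀ x ∈ Y,
    ∃ h' ∈ H, h' x ≠ none ∧ ∀ y, h y ≠ none → h' y = h y

/-- The restriction of a partial assignment to the variables of a clause. -/
def onVars [DecidableEq X] (C : Clause X) (h : X → Option Bool) : X → Option Bool :=
  fun y => if y ∈ C.image Prod.fst then h y else none

theorem onVars_le [DecidableEq X] (C : Clause X) (h : X → Option Bool) (x : X) :
    onVars C h x = none ∨ onVars C h x = h x := by
  unfold onVars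
  split_ifs
  · exact Or.inr rfl
  · exact Or.inl rfl

theorem onVars_card [Fintype X] [DecidableEq X] (C : Clause X) (h : X → Option Bool) :
    (univ.filter fun x => onVars C h x ≠ none).card ≤ C.card := by
  refine (card_le_card ?_).trans (card_image_le (s := C) (f := Prod.fst))
  intro x hx
  by_contra hcon
  rw [mem_filter] at hx
  apply hx.2
  unfold onVars
  rw [if_neg hcon]

theorem onVars_eq [DecidableEq X] {C : Clause X} {h : X → Option Bool}
    (hf : ∀ l ∈ C, h l.1 = some (!l.2)) : ∀ l ∈ C, onVars C h l.1 = some (!l.2) := by
  intro l hl
  unfold onVars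
  rw [if_pos (mem_image_of_mem _ hl)]
  exact hf l hl

/-- Narrow derivations are refuted by strategies. -/
theorem no_narrow [Fintype X] [DecidableEq X] {F : Set (Clause X)} {S : Finset (Clause X)}
    {Y : Finset X} {w d : ℕ} {H : Set (X → Option Bool)} (hs : Strat F Y w H) (hdw : d + 1 ≤ w)
    (hS : ∀ C ∈ S, C.card ≤ d) (hY : ∀ C ∈ S, ∀ l ∈ C, l.1 ∈ Y) (C : Clause X)
    (hD : Der F S C) : C ∈ S ∧ ∀ h ∈ H, ¬ ∀ l ∈ C, h l.1 = some (!l.2) := by
  induction hD with
  | ax C h1 h2 => exact ⟨h2, fun h hh => hs.sound h hh C h1⟩
  | res A B C x _ _ h1 h2 h3 ihA ihB =>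
    refine ⟨h3, fun h hh hf => ?_⟩
    by_cases hx : x ∈ Y
    · have hh0 := hs.restrict h hh _ (onVars_le C h)
      obtain ⟨h', hh', hx', hext⟩ := hs.extend _ hh0
        (lt_of_le_of_lt (onVars_card C h) (by have := hS C h3; omega)) x hx
      have hC' : ∀ l ∈ C, h' l.1 = some (!l.2) := by
        intro l hl
        have := onVars_eq hf l hl
        rw [hext l.1 (by rw [this]; simp), this]
      rcases hb : h' x with _ | b
      · exact hx' hb
      · cases b with
        | false =>
          refine ihA.2 h' hh' fun l hl => ?_
          rcases mem_insert.1 (h1 hl) with rfl | hl'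
          · exact hb
          · exact hC' l hl'
        | true =>
          refine ihB.2 h' hh' fun l hl => ?_
          rcases mem_insert.1 (h2 hl) with rfl | hl'
          · exact hb
          · exact hC' l hl'
    · refine ihA.2 h hh fun l hl => ?_
      rcases mem_insert.1 (h1 hl) with rfl | hl'
      · exact absurd (hY A ihA.1 _ hl) hx
      · exact hf l hl'

/-- The formula after the literal `l` has been set to true. -/
def setF [DecidableEq X] (l : X × Bool) (F : Set (Clause X)) : Set (Clause X) :=
  {C' | ∃ C ∈ F, l ∉ C ∧ C' = C.erase (l.1, !l.2)}

/-- The clauses of a derivation after the literal `l` has been set to true. -/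
def setS [DecidableEq X] (l : X × Bool) (S : Finset (Clause X)) : Finset (Clause X) :=
  (S.filter fun C => l ∉ C).image fun C => C.erase (l.1, !l.2)

theorem der_set [DecidableEq X] {F : Set (Clause X)} {S : Finset (Clause X)} (l : X × Bool)
    (C : Clause X) (hD : Der F S C) :
    l ∉ C → Der (setF l F) (setS l S) (C.erase (l.1, !l.2)) := by
  induction hD with
  | ax C h1 h2 =>
    intro hl
    exact Der.ax _ ⟨C, h1, hl, rfl⟩ (mem_image_of_mem _ (mem_filter.2 ⟨h2, hl⟩))
  | res A B C x _ _ h1 h2 h3 ihA ihB =>
    intro hl
    have hmem : C.erase (l.1, !l.2) ∈ setS l S := mem_image_of_mem _ (mem_filter.2 ⟨h3, hl⟩)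
    obtain ⟨lx, lv⟩ := l
    by_cases hx : x = lx
    · subst hx
      cases lv with
      | false =>
        -- the literal is the negation of `x`; the first premise survives
        have hA : ((x, false) : X × Bool) ∉ A := by
          intro h
          rcases mem_insert.1 (h1 h) with h | h
          · simp at h
          · exact hl h
        have h5 := ihA hA
        have h6 : A.erase (x, true) ⊆ C.erase (x, true) := by
          intro z hz
          rw [mem_erase] at hz ⊢
          refine ⟨hz.1, ?_⟩
          rcases mem_insert.1 (h1 hz.2) with h | h
          · exact absurd h hz.1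
          · exact h
        exact Der.res _ _ _ x h5 h5 (h6.trans (subset_insert _ _)) (h6.trans (subset_insert _ _))
          hmem
      | true =>
        have hB : ((x, true) : X × Bool) ∉ B := by
          intro h
          rcases mem_insert.1 (h2 h) with h | h
          · simp at h
          · exact hl h
        have h5 := ihB hB
        have h6 : B.erase (x, false) ⊆ C.erase (x, false) := by
          intro z hz
          rw [mem_erase] at hz ⊢
          refine ⟨hz.1, ?_⟩
          rcases mem_insert.1 (h2 hz.2) with h | h
          · exact absurd h hz.1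
          · exact h
        exact Der.res _ _ _ x h5 h5 (h6.trans (subset_insert _ _)) (h6.trans (subset_insert _ _))
          hmem
    · have hA : ((lx, lv) : X × Bool) ∉ A := by
        intro h
        rcases mem_insert.1 (h1 h) with h | h
        · exact hx (Prod.mk.inj h).1.symm
        · exact hl h
      have hB : ((lx, lv) : X × Bool) ∉ B := by
        intro h
        rcases mem_insert.1 (h2 h) with h | h
        · exact hx (Prod.mk.inj h).1.symm
        · exact hl h
      refine Der.res _ _ _ x (ihA hA) (ihB hB) ?_ ?_ hmem
      · intro z hz
        rw [mem_erase] at hz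
        rcases mem_insert.1 (h1 hz.2) with h | h
        · exact mem_insert.2 (Or.inl h)
        · exact mem_insert.2 (Or.inr (mem_erase.2 ⟨hz.1, h⟩))
      · intro z hz
        rw [mem_erase] at hz
        rcases mem_insert.1 (h2 hz.2) with h | h
        · exact mem_insert.2 (Or.inl h)
        · exact mem_insert.2 (Or.inr (mem_erase.2 ⟨hz.1, h⟩))

/-- The dichotomy for strategies. -/
theorem dichotomy [Fintype X] [DecidableEq X] {F : Set (Clause X)} {Y : Finset X} {w : ℕ}
    {H : Set (X → Option Bool)} (hs : Strat F Y (w + 1) H) (hF : ∀ C ∈ F, C.card ≤ w + 1)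
    (l : X × Bool) (hl : l.1 ∈ Y) :
    (∃ H', Strat (setF l F) (Y.erase l.1) w H') ∨
      ∃ H', Strat (setF (l.1, !l.2) F) (Y.erase l.1) (w + 1) H' := by
  obtain ⟨x, v⟩ := l
  dsimp only at hl ⊢
  have hempty : (fun _ => none) ∈ H := by
    obtain ⟨h, hh⟩ := hs.nonempty
    exact hs.restrict h hh _ fun _ => Or.inl rfl
  by_cases hv : Function.update (fun _ => none) x (some v) ∈ H
  · left
    refine ⟨{h | (∀ y, h y ≠ none → y ∈ Y.erase x) ∧ Function.update h x (some v) ∈ H}, ?_, ?_, ?_,
      ?_, ?_, ?_⟩
    · exact ⟨fun _ => none, fun y hy => absurd rfl hy, hv⟩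
    · intro h hh
      have h1 := hs.small _ hh.2
      have h2 : (univ.filter fun y => Function.update h x (some v) y ≠ none) =
          insert x (univ.filter fun y => h y ≠ none) := by
        ext y
        rw [mem_filter, mem_insert, mem_filter]
        by_cases hy : y = x
        · subst hy
          simp
        · rw [Function.update_of_ne hy]
          simp [hy]
      rw [h2, card_insert_of_notMem] at h1
      · omega
      · intro h3
        have := hh.1 x (mem_filter.1 h3).2
        simp at this
    · exact fun h hh => hh.1
    · rintro h ⟨hh1, hh2⟩ C' ⟨C, hC, hlC, rfl⟩ hf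
      refine hs.sound _ hh2 C hC fun z hz => ?_
      by_cases hzx : z.1 = x
      · have hzv : z.2 = !v := by
          by_contra hne
          apply hlC
          have : z = (x, v) := by
            refine Prod.ext hzx ?_
            cases hz2 : z.2 <;> cases v <;> simp_all
          rw [← this]
          exact hz
        rw [hzx, Function.update_self, hzv, Bool.not_not]
      · rw [Function.update_of_ne hzx]
        exact hf z (mem_erase.2 ⟨fun h => hzx (by rw [h]), hz⟩)
    · rintro h ⟨hh1, hh2⟩ h' hle
      refine ⟨?_, ?_⟩
      · intro y hy
        rcases hle y with h1 | h1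
        · exact absurd h1 hy
        · exact hh1 y (h1 ▸ hy)
      · refine hs.restrict _ hh2 _ fun y => ?_
        by_cases hy : y = x
        · subst hy
          right
          rw [Function.update_self, Function.update_self]
        · rw [Function.update_of_ne hy, Function.update_of_ne hy]
          exact hle y
    · rintro h ⟨hh1, hh2⟩ hlt y hy
      rw [mem_erase] at hy
      have hcard : (univ.filter fun y => Function.update h x (some v) y ≠ none).card < w + 1 := by
        have h2 : (univ.filter fun y => Function.update h x (some v) y ≠ none) ⊆
            insert x (univ.filter fun y => h y ≠ none) := by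
          intro y hy
          rw [mem_filter] at hy
          rw [mem_insert, mem_filter]
          by_cases hyx : y = x
          · exact Or.inl hyx
          · rw [Function.update_of_ne hyx] at hy
            exact Or.inr hy
        exact lt_of_le_of_lt ((card_le_card h2).trans (card_insert_le _ _)) (by omega)
      obtain ⟨h1, hh3, h4, h5⟩ := hs.extend _ hh2 hcard y hy.2
      have hx1 : h1 x = some v := by
        have := h5 x (by rw [Function.update_self]; simp)
        rwa [Function.update_self] at this
      refine ⟨Function.update h1 x none, ⟨?_, ?_⟩, ?_, ?_⟩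
      · intro z hz
        by_cases hzx : z = x
        · subst hzx
          rw [Function.update_self] at hz
          exact absurd rfl hz
        · rw [Function.update_of_ne hzx] at hz
          exact mem_erase.2 ⟨hzx, hs.live h1 hh3 z hz⟩
      · rw [Function.update_idem]
        have : Function.update h1 x (some v) = h1 := by
          rw [← hx1, Function.update_eq_self]
        rw [this]
        exact hh3
      · rw [Function.update_of_ne hy.1]
        exact h4
      · intro z hz
        have hzx : z ≠ x := by
          rintro rfl
          have := hh1 z hz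
          simp at this
        rw [Function.update_of_ne hzx]
        have := h5 z (by rw [Function.update_of_ne hzx]; exact hz)
        rwa [Function.update_of_ne hzx] at this
  · right
    refine ⟨{h | h ∈ H ∧ h x = none}, ?_, ?_, ?_, ?_, ?_, ?_⟩
    · exact ⟨fun _ => none, hempty, rfl⟩
    · exact fun h hh => hs.small h hh.1
    · rintro h ⟨hh1, hh2⟩ y hy
      refine mem_erase.2 ⟨?_, hs.live h hh1 y hy⟩
      rintro rfl
      exact hy hh2
    · rintro h ⟨hh1, hh2⟩ C' ⟨C, hC, hlC, rfl⟩ hf
      dsimp only at hlC hf
      rw [Bool.not_not] at hf
      by_cases hmem : (x, v) ∈ C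
      · have hh0 := hs.restrict h hh1 _ (onVars_le (C.erase (x, v)) h)
        have hc1 := onVars_card (C.erase (x, v)) h
        rw [card_erase_of_mem hmem] at hc1
        have hc2 := hF C hC
        have hc3 : 0 < C.card := card_pos.2 ⟨_, hmem⟩
        obtain ⟨h1, hh3, h4, h5⟩ := hs.extend _ hh0 (by omega) x hl
        rcases hb : h1 x with _ | b
        · exact h4 hb
        · have hbv : b ≠ v := by
            rintro rfl
            apply hv
            refine hs.restrict h1 hh3 _ fun y => ?_
            by_cases hy : y = x
            · subst hy
              rw [Function.update_self, hb]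
              exact Or.inr rfl
            · rw [Function.update_of_ne hy]
              exact Or.inl rfl
          refine hs.sound h1 hh3 C hC fun z hz => ?_
          by_cases hzx : z = (x, v)
          · subst hzx
            rw [hb]
            cases b <;> cases v <;> simp_all
          · have h6 := onVars_eq hf z (mem_erase.2 ⟨hzx, hz⟩)
            rw [h5 z.1 (by rw [h6]; simp), h6]
      · rw [erase_eq_of_notMem hmem] at hf
        exact hs.sound h hh1 C hC hf
    · rintro h ⟨hh1, hh2⟩ h' hle
      refine ⟨hs.restrict h hh1 h' hle, ?_⟩
      rcases hle x with h1 | h1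
      · exact h1
      · rw [h1, hh2]
    · rintro h ⟨hh1, hh2⟩ hlt y hy
      rw [mem_erase] at hy
      obtain ⟨h1, hh3, h4, h5⟩ := hs.extend h hh1 hlt y hy.2
      refine ⟨Function.update h1 x none, ⟨?_, Function.update_self _ _ _⟩, ?_, ?_⟩
      · refine hs.restrict h1 hh3 _ fun z => ?_
        by_cases hzx : z = x
        · subst hzx
          exact Or.inl (Function.update_self _ _ _)
        · exact Or.inr (Function.update_of_ne hzx _ _)
      · rw [Function.update_of_ne hy.1]
        exact h4
      · intro z hz
        have hzx : z ≠ x := by
          rintro rfl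
          exact hz hh2
        rw [Function.update_of_ne hzx]
        exact h5 z hz

end Pool.Agent.L0h67.TT
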