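import Mathlib
import Pool.Agent.L0h67.TT.Reso

set_option autoImplicit false

namespace Pool.Agent.L0h67.TT

open Finset

variable {X : Type}

theorem setF_card [DecidableEq X] {F : Set (Clause X)} {w0 : ℕ} (hF : ∀ C ∈ F, C.card ≤ w0)
    (l : X × Bool) : ∀ C ∈ setF l F, C.card ≤ w0 := by
  rintro C' ⟨C, hC, -, rfl⟩
  exact (card_erase_le).trans (hF C hC)

theorem setS_live [DecidableEq X] {S : Finset (Clause X)} {Y : Finset X}
    (hS : ∀ C ∈ S, ∀ z ∈ C, z.1 ∈ Y) (l : X × Bool) :
    ∀ C ∈ setS l S, ∀ z ∈ C, z.1 ∈ Y.erase l.1 := by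
  intro C' hC' z hz
  obtain ⟨C, hC, rfl⟩ := mem_image.1 hC'
  rw [mem_filter] at hC
  rw [mem_erase] at hz
  refine mem_erase.2 ⟨?_, hS C hC.1 z hz.2⟩
  intro hzx
  have h1 : z = l ∨ z = (l.1, !l.2) := by
    rcases hz2 : z.2 with _ | _ <;> rcases hl2 : l.2 with _ | _
    · exact Or.inl (Prod.ext hzx (hz2.trans hl2.symm))
    · exact Or.inr (Prod.ext hzx (by simp [hz2]))
    · exact Or.inr (Prod.ext hzx (by simp [hz2]))
    · exact Or.inl (Prod.ext hzx (hz2.trans hl2.symm))
  rcases h1 with h1 | h1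
  · exact hC.2 (h1 ▸ hz.2)
  · exact hz.1 h1

theorem fat_set [DecidableEq X] (S : Finset (Clause X)) (l : X × Bool) (d : ℕ) :
    ((setS l S).filter fun C => d < C.card).card ≤
      ((S.filter fun C => d < C.card).filter fun C => l ∉ C).card := by
  refine (card_le_card ?_).trans (card_image_le (f := fun C : Clause X => C.erase (l.1, !l.2)))
  intro C' hC'
  rw [mem_filter] at hC'
  obtain ⟨C, hC, rfl⟩ := mem_image.1 hC'.1
  rw [mem_filter] at hC
  exact mem_image_of_mem _ (mem_filter.2 ⟨mem_filter.2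
    ⟨hC.1, lt_of_lt_of_le hC'.2 card_erase_le⟩, hC.2⟩)

theorem popular [Fintype X] [DecidableEq X] (T : Finset (Clause X)) (N d : ℕ)
    (hN : Fintype.card X ≤ N) (hN0 : 0 < N) (hd : 1 ≤ d) (hT : T.Nonempty)
    (hfat : ∀ C ∈ T, d < C.card) :
    ∃ l : X × Bool, ((T.filter fun C => l ∉ C).card : ℝ) ≤ (1 - d / (2 * N)) * T.card ∧
      ∃ C ∈ T, l ∈ C := by
  by_contra hcon
  push Not at hcon
  have hTc : (0 : ℝ) < T.card := by exact_mod_cast card_pos.2 hT
  have hN1 : (0 : ℝ) < N := by exact_mod_cast hN0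
  have hd1 : (1 : ℝ) ≤ d := by exact_mod_cast hd
  -- every literal is rare
  have h1 : ∀ l : X × Bool, ((T.filter fun C => l ∈ C).card : ℝ) ≤ d / (2 * N) * T.card := by
    intro l
    by_contra h2
    push Not at h2
    have h3 : (((T.filter fun C => l ∈ C).card : ℕ) : ℝ) + ((T.filter fun C => l ∉ C).card : ℝ) =
        T.card := by
      exact_mod_cast card_filter_add_card_filter_not (s := T) (fun C => l ∈ C)
    obtain h4 := hcon l (by linarith)
    have h5 : (T.filter fun C => l ∈ C) = ∅ := by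
      rw [filter_eq_empty_iff]
      exact h4
    rw [h5] at h2
    simp only [card_empty, Nat.cast_zero] at h2
    have : (0 : ℝ) ≤ d / (2 * N) * T.card := by positivity
    linarith
  have h2 : ∑ l : X × Bool, ((T.filter fun C => l ∈ C).card : ℝ) = ∑ C ∈ T, (C.card : ℝ) := by
    have : ∑ l : X × Bool, (T.filter fun C => l ∈ C).card = ∑ C ∈ T, C.card := by
      simp only [card_filter]
      rw [sum_comm]
      refine sum_congr rfl fun C _ => ?_
      simp
    exact_mod_cast this
  have h3 : ∑ C ∈ T, ((d : ℝ) + 1) ≤ ∑ C ∈ T, (C.card : ℝ) := by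
    refine sum_le_sum fun C hC => ?_
    exact_mod_cast hfat C hC
  have h4 : ∑ l : X × Bool, ((T.filter fun C => l ∈ C).card : ℝ) ≤
      ∑ _l : X × Bool, (d / (2 * N) * T.card : ℝ) := sum_le_sum fun l _ => h1 l
  rw [sum_const, card_univ, Fintype.card_prod, Fintype.card_bool, nsmul_eq_mul] at h4
  rw [sum_const, nsmul_eq_mul] at h3
  have h5 : ((Fintype.card X * 2 : ℕ) : ℝ) * (d / (2 * N) * T.card) ≤ d * T.card := by
    have h6 : ((Fintype.card X * 2 : ℕ) : ℝ) ≤ 2 * N := by
      push_cast
      have : ((Fintype.card X : ℕ) : ℝ) ≤ N := by exact_mod_cast hN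
      linarith
    calc ((Fintype.card X * 2 : ℕ) : ℝ) * (d / (2 * N) * T.card)
        ≤ (2 * N) * (d / (2 * N) * T.card) := mul_le_mul_of_nonneg_right h6 (by positivity)
      _ = d * T.card := by field_simp
  rw [h2] at h4
  nlinarith

/-- The size-width tradeoff of Ben-Sasson and Wigderson, for strategies. -/
theorem bsw [Fintype X] [DecidableEq X] (N d w0 L0 : ℕ) (hN : Fintype.card X ≤ N) (hN0 : 0 < N)
    (hd : 1 ≤ d) (hdN : d ≤ 2 * N) (hL : d + 1 ≤ L0) (hw : w0 ≤ L0) (b : ℕ) :
    ∀ (c : ℕ) (Y : Finset X), Y.card ≤ c → ∀ (F : Set (Clause X)) (S : Finset (Clause X))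
      (H : Set (X → Option Bool)), (∀ C ∈ F, C.card ≤ w0) → (∀ C ∈ S, ∀ l ∈ C, l.1 ∈ Y) →
      Strat F Y (L0 + b) H → Der F S ∅ →
      1 ≤ (1 - (d : ℝ) / (2 * N)) ^ b * ((S.filter fun C => d < C.card).card : ℝ) := by
  have hN1 : (0 : ℝ) < N := by exact_mod_cast hN0
  have hr0 : 0 ≤ 1 - (d : ℝ) / (2 * N) := by
    have : (d : ℝ) ≤ 2 * N := by exact_mod_cast hdN
    rw [sub_nonneg, div_le_one (by positivity)]
    exact this
  -- there is a fat clause
  have base : ∀ (b : ℕ) (Y : Finset X) (F : Set (Clause X)) (S : Finset (Clause X))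
      (H : Set (X → Option Bool)), (∀ C ∈ S, ∀ l ∈ C, l.1 ∈ Y) →
      Strat F Y (L0 + b) H → Der F S ∅ → (S.filter fun C => d < C.card).Nonempty := by
    intro b Y F S H hS hs hD
    by_contra hcon
    rw [not_nonempty_iff_eq_empty, filter_eq_empty_iff] at hcon
    obtain ⟨-, h1⟩ := no_narrow hs (by omega) (fun C hC => not_lt.1 (hcon hC)) hS ∅ hD
    obtain ⟨h, hh⟩ := hs.nonempty
    exact h1 h hh (by simp)
  induction b with
  | zero =>
    intro c Y _ F S H _ hS hs hD
    have h1 := base 0 Y F S H hS hs hD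
    rw [pow_zero, one_mul]
    exact_mod_cast card_pos.2 h1
  | succ b ihb =>
    intro c
    induction c with
    | zero =>
      intro Y hY F S H hF hS hs hD
      -- no live variables, so no fat clauses
      exfalso
      obtain ⟨C, hC⟩ := base (b + 1) Y F S H hS hs hD
      rw [mem_filter] at hC
      obtain ⟨l, hl⟩ := card_pos.1 (show 0 < C.card by omega)
      have := hS C hC.1 l hl
      rw [card_eq_zero.1 (show Y.card = 0 by omega)] at this
      simp at this
    | succ c ihc =>
      intro Y hY F S H hF hS hs hD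
      have hne := base (b + 1) Y F S H hS hs hD
      obtain ⟨l, hl1, C, hC, hlC⟩ := popular (S.filter fun C => d < C.card) N d hN hN0 hd hne
        (fun C hC => (mem_filter.1 hC).2)
      have hlY : l.1 ∈ Y := hS C (mem_filter.1 hC).1 l hlC
      have hs' : Strat F Y ((L0 + b) + 1) H := hs
      rcases dichotomy hs' (fun C hC => (hF C hC).trans (by omega)) l hlY with ⟨H', hH'⟩ | ⟨H', hH'⟩
      · have hD' : Der (setF l F) (setS l S) ∅ := by
          have := der_set l ∅ hD (by simp)
          simpa using this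
        have h1 := ihb (Y.erase l.1).card (Y.erase l.1) (le_refl _) (setF l F) (setS l S) H'
          (setF_card hF l) (setS_live hS l) hH' hD'
        have h2 : (((setS l S).filter fun C => d < C.card).card : ℝ) ≤
            (1 - (d : ℝ) / (2 * N)) * ((S.filter fun C => d < C.card).card : ℝ) :=
          le_trans (by exact_mod_cast fat_set S l d) hl1
        calc (1 : ℝ) ≤ (1 - (d : ℝ) / (2 * N)) ^ b *
              (((setS l S).filter fun C => d < C.card).card : ℝ) := h1
          _ ≤ (1 - (d : ℝ) / (2 * N)) ^ b *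
              ((1 - (d : ℝ) / (2 * N)) * ((S.filter fun C => d < C.card).card : ℝ)) :=
            mul_le_mul_of_nonneg_left h2 (by positivity)
          _ = _ := by ring
      · have hD' : Der (setF (l.1, !l.2) F) (setS (l.1, !l.2) S) ∅ := by
          have := der_set (l.1, !l.2) ∅ hD (by simp)
          simpa using this
        have h1 := ihc (Y.erase l.1) (by rw [card_erase_of_mem hlY]; omega)
          (setF (l.1, !l.2) F) (setS (l.1, !l.2) S) H'
          (setF_card hF _) (setS_live hS (l.1, !l.2)) hH' hD'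
        have h2 : (((setS (l.1, !l.2) S).filter fun C => d < C.card).card : ℝ) ≤
            ((S.filter fun C => d < C.card).card : ℝ) := by
          exact_mod_cast (fat_set S (l.1, !l.2) d).trans (card_filter_le _ _)
        calc (1 : ℝ) ≤ (1 - (d : ℝ) / (2 * N)) ^ (b + 1) *
              (((setS (l.1, !l.2) S).filter fun C => d < C.card).card : ℝ) := h1
          _ ≤ _ := mul_le_mul_of_nonneg_left h2 (by positivity)

end Pool.Agent.L0h67.TT
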