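import Mathlib

set_option autoImplicit false

namespace Pool.Agent.L0h67.TT

open Finset

/-- A map which is injective outside a small set `Z` has a long orbit avoiding `Z`. -/
theorem orbit {α : Type*} [DecidableEq α] (X Z : Finset α) (φ : α → α) (m : ℕ)
    (hmap : ∀ x ∈ X, x ∉ Z → φ x ∈ X)
    (hinj : ∀ x ∈ X, x ∉ Z → ∀ y ∈ X, y ∉ Z → φ x = φ y → x = y)
    (hcard : m * Z.card < X.card) :
    ∃ x ∈ X, ∀ i < m, φ^[i] x ∈ X ∧ φ^[i] x ∉ Z := by
  classical
  by_contra hcon
  push Not at hcon
  -- every element of X reaches Z in fewer than m steps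
  have hex : ∀ x ∈ X, ∃ i, i < m ∧ φ^[i] x ∈ Z := by
    intro x hx
    by_contra h
    push Not at h
    obtain ⟨i, hi, h2⟩ := hcon x hx
    have h3 : ∀ j, j < m → φ^[j] x ∈ X := by
      intro j
      induction j with
      | zero => exact fun _ => hx
      | succ j ih =>
        intro hj
        rw [Function.iterate_succ_apply']
        exact hmap _ (ih (by omega)) (h j (by omega))
    exact h i hi (h2 (h3 i hi))
  choose! f hf using hex
  -- first hitting time
  have hfind : ∀ x ∈ X, ∃ i, i < m ∧ φ^[i] x ∈ Z ∧ ∀ j < i, φ^[j] x ∉ Z := by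
    intro x hx
    have h1 : ∃ i, φ^[i] x ∈ Z := ⟨f x, (hf x hx).2⟩
    refine ⟨Nat.find h1, ?_, Nat.find_spec h1, fun j hj => Nat.find_min h1 hj⟩
    exact lt_of_le_of_lt (Nat.find_min' h1 (hf x hx).2) (hf x hx).1
  choose! g hg using hfind
  have hX : ∀ x ∈ X, ∀ j, j ≤ g x → φ^[j] x ∈ X := by
    intro x hx j
    induction j with
    | zero => exact fun _ => hx
    | succ j ih =>
      intro hj
      rw [Function.iterate_succ_apply']
      exact hmap _ (ih (by omega)) ((hg x hx).2.2 j (by omega))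
  have hback : ∀ i, ∀ x ∈ X, ∀ y ∈ X, (∀ j < i, φ^[j] x ∈ X ∧ φ^[j] x ∉ Z) →
      (∀ j < i, φ^[j] y ∈ X ∧ φ^[j] y ∉ Z) → φ^[i] x = φ^[i] y → x = y := by
    intro i
    induction i with
    | zero => exact fun x _ y _ _ _ h => h
    | succ i ih =>
      intro x hx y hy h1 h2 h3
      rw [Function.iterate_succ_apply', Function.iterate_succ_apply'] at h3
      have h4 := hinj _ (h1 i (by omega)).1 (h1 i (by omega)).2 _ (h2 i (by omega)).1
        (h2 i (by omega)).2 h3
      exact ih x hx y hy (fun j hj => h1 j (by omega)) (fun j hj => h2 j (by omega)) h4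
  have hle : X.card ≤ (range m ×ˢ Z).card := by
    apply card_le_card_of_injOn (fun x => (g x, φ^[g x] x))
    · intro x hx
      rw [Finset.mem_coe] at hx
      rw [Finset.mem_coe, mem_product]
      exact ⟨mem_range.2 (hg x hx).1, (hg x hx).2.1⟩
    · intro x hx y hy hxy
      rw [Finset.mem_coe] at hx hy
      simp only [Prod.mk.injEq] at hxy
      obtain ⟨h1, h2⟩ := hxy
      refine hback (g x) x hx y hy (fun j hj => ⟨hX x hx j (by omega), (hg x hx).2.2 j hj⟩)
        (fun j hj => ⟨hX y hy j (by omega), (hg y hy).2.2 j (by omega)⟩) ?_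
      rw [h2, h1]
  rw [card_product, card_range] at hle
  omega

end Pool.Agent.L0h67.TT
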