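import Mathlib
import Pool.Agent.L0h67.TT.Orbit

set_option autoImplicit false

namespace Pool.Agent.L0h67.TT

open Finset

variable {U V E : Type} [Fintype E] [DecidableEq U] [DecidableEq V] [DecidableEq E]

/-- The edges inside a set of vertices of a bipartite multigraph; the ends of the edge `e` are
`a e` on the left and `b e` on the right. -/
def EW (a : E → U) (b : E → V) (W : Finset (U ⊕ V)) : Finset E :=
  univ.filter fun e => Sum.inl (a e) ∈ W ∧ Sum.inr (b e) ∈ W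

/-- The degree of a vertex inside a set of vertices. -/
def deg (a : E → U) (b : E → V) (W : Finset (U ⊕ V)) (x : U ⊕ V) : ℕ :=
  ((EW a b W).filter fun e => Sum.inl (a e) = x ∨ Sum.inr (b e) = x).card

omit [DecidableEq E] in
theorem mem_EW {a : E → U} {b : E → V} {W : Finset (U ⊕ V)} {e : E} :
    e ∈ EW a b W ↔ Sum.inl (a e) ∈ W ∧ Sum.inr (b e) ∈ W := by
  unfold EW
  simp

theorem sum_deg (a : E → U) (b : E → V) (W T : Finset (U ⊕ V)) :
    ∑ x ∈ T, deg a b W x = ((EW a b W).filter fun e => Sum.inl (a e) ∈ T).card +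
      ((EW a b W).filter fun e => Sum.inr (b e) ∈ T).card := by
  have h1 : ∀ x ∈ T, deg a b W x =
      ((EW a b W).filter fun e => (Sum.inl (a e) : U ⊕ V) = x).card +
      ((EW a b W).filter fun e => (Sum.inr (b e) : U ⊕ V) = x).card := by
    intro x _
    unfold deg
    rw [filter_or, card_union_of_disjoint]
    rw [disjoint_filter]
    intro e _ h2 h3
    rw [← h2] at h3
    simp at h3
  rw [sum_congr rfl h1, sum_add_distrib]
  congr 1
  · exact (card_eq_sum_card_fiberwise (s := (EW a b W).filter fun e => Sum.inl (a e) ∈ T)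
      (t := T) (f := fun e => Sum.inl (a e)) (fun e he => (mem_filter.1 he).2)).symm ▸ by
      refine sum_congr rfl fun x hx => ?_
      congr 1
      ext e
      simp only [mem_filter]
      constructor
      · rintro ⟨h2, h3⟩
        exact ⟨⟨h2, h3 ▸ hx⟩, h3⟩
      · rintro ⟨⟨h2, _⟩, h3⟩
        exact ⟨h2, h3⟩
  · exact (card_eq_sum_card_fiberwise (s := (EW a b W).filter fun e => Sum.inr (b e) ∈ T)
      (t := T) (f := fun e => Sum.inr (b e)) (fun e he => (mem_filter.1 he).2)).symm ▸ by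
      refine sum_congr rfl fun x hx => ?_
      congr 1
      ext e
      simp only [mem_filter]
      constructor
      · rintro ⟨h2, h3⟩
        exact ⟨⟨h2, h3 ▸ hx⟩, h3⟩
      · rintro ⟨⟨h2, _⟩, h3⟩
        exact ⟨h2, h3⟩

theorem sum_deg_self (a : E → U) (b : E → V) (W : Finset (U ⊕ V)) :
    ∑ x ∈ W, deg a b W x = 2 * (EW a b W).card := by
  rw [sum_deg, filter_true_of_mem (fun e he => (mem_EW.1 he).1),
    filter_true_of_mem (fun e he => (mem_EW.1 he).2)]
  ring

/-- A path through vertices of degree two: the data of `chain`. -/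
structure Chain (a : E → U) (b : E → V) (W S : Finset (U ⊕ V)) (m : ℕ) (e e' : ℕ → E) : Prop where
  mem : ∀ i, i < m → e i ∈ EW a b W
  mem' : ∀ i, i < m → e' i ∈ EW a b W
  eqU : ∀ i, i < m → a (e' i) = a (e i)
  neU : ∀ i, i < m → e' i ≠ e i
  onlyU : ∀ i, i < m → ∀ f ∈ EW a b W, a f = a (e i) → f = e i ∨ f = e' i
  notU : ∀ i, i < m → Sum.inl (a (e i)) ∉ S
  eqV : ∀ i, i + 1 < m → b (e (i + 1)) = b (e' i)
  neV : ∀ i, i + 1 < m → e (i + 1) ≠ e' i
  onlyV : ∀ i, i + 1 < m → ∀ f ∈ EW a b W, b f = b (e' i) → f = e' i ∨ f = e (i + 1)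
  notV : ∀ i, i + 1 < m → Sum.inr (b (e' i)) ∉ S

theorem chain (a : E → U) (b : E → V) (W S : Finset (U ⊕ V)) (m : ℕ) (hSW : S ⊆ W)
    (hdeg : ∀ x ∈ W, x ∉ S → 2 ≤ deg a b W x)
    (hsp : 12 * m * (EW a b W).card ≤ (12 * m + 1) * W.card)
    (hcard : (12 * m + 2) * S.card < W.card) :
    ∃ e e' : ℕ → E, Chain a b W S m e e' := by
  classical
  set B : Finset (U ⊕ V) := W.filter fun x => x ∈ S ∨ 3 ≤ deg a b W x with hB
  have hgood : ∀ x ∈ W, x ∉ B → x ∉ S ∧ deg a b W x = 2 := by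
    intro x hx hxB
    rw [hB, mem_filter] at hxB
    push Not at hxB
    obtain ⟨h1, h2⟩ := hxB hx
    exact ⟨h1, by have := hdeg x hx h1; omega⟩
  -- the other edge at a vertex of degree two
  have hoth : ∀ x : U ⊕ V, x ∈ W → x ∉ B → ∀ e ∈ EW a b W,
      (Sum.inl (a e) = x ∨ Sum.inr (b e) = x) → ∃ e' ∈ EW a b W, e' ≠ e ∧
      (Sum.inl (a e') = x ∨ Sum.inr (b e') = x) ∧
      ∀ f ∈ EW a b W, (Sum.inl (a f) = x ∨ Sum.inr (b f) = x) → f = e ∨ f = e' := by
    intro x hx hxB e he hex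
    have h2 := (hgood x hx hxB).2
    unfold deg at h2
    rw [card_eq_two] at h2
    obtain ⟨e1, e2, hne, h3⟩ := h2
    have hmem : ∀ f, (f ∈ EW a b W ∧ (Sum.inl (a f) = x ∨ Sum.inr (b f) = x)) ↔
        f = e1 ∨ f = e2 := by
      intro f
      have h4 := Finset.ext_iff.1 h3 f
      rw [mem_filter, mem_insert, mem_singleton] at h4
      exact h4
    rcases (hmem e).1 ⟨he, hex⟩ with rfl | rfl
    · obtain ⟨h4, h5⟩ := (hmem e2).2 (Or.inr rfl)
      exact ⟨e2, h4, hne.symm, h5, fun f hf hfx => (hmem f).1 ⟨hf, hfx⟩⟩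
    · obtain ⟨h4, h5⟩ := (hmem e1).2 (Or.inl rfl)
      exact ⟨e1, h4, hne, h5, fun f hf hfx => ((hmem f).1 ⟨hf, hfx⟩).symm⟩
  have hU : ∀ e, e ∈ EW a b W → (Sum.inl (a e) : U ⊕ V) ∉ B → ∃ e' ∈ EW a b W, e' ≠ e ∧
      a e' = a e ∧ ∀ f ∈ EW a b W, a f = a e → f = e ∨ f = e' := by
    intro e he heB
    obtain ⟨e', h1, h2, h3, h4⟩ := hoth _ (mem_EW.1 he).1 heB e he (Or.inl rfl)
    refine ⟨e', h1, h2, ?_, fun f hf hfa => h4 f hf (Or.inl (by rw [hfa]))⟩
    rcases h3 with h3 | h3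
    · exact Sum.inl_injective h3
    · simp at h3
  have hV : ∀ e, e ∈ EW a b W → (Sum.inr (b e) : U ⊕ V) ∉ B → ∃ e' ∈ EW a b W, e' ≠ e ∧
      b e' = b e ∧ ∀ f ∈ EW a b W, b f = b e → f = e ∨ f = e' := by
    intro e he heB
    obtain ⟨e', h1, h2, h3, h4⟩ := hoth _ (mem_EW.1 he).2 heB e he (Or.inr rfl)
    refine ⟨e', h1, h2, ?_, fun f hf hfa => h4 f hf (Or.inr (by rw [hfa]))⟩
    rcases h3 with h3 | h3
    · simp at h3
    · exact Sum.inr_injective h3
  choose! oU hoU using hU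
  choose! oV hoV using hV
  set Z : Finset E := (EW a b W).filter fun e =>
    (Sum.inl (a e) : U ⊕ V) ∈ B ∨ (Sum.inr (b (oU e)) : U ⊕ V) ∈ B with hZ
  have hnZ : ∀ e ∈ EW a b W, e ∉ Z →
      (Sum.inl (a e) : U ⊕ V) ∉ B ∧ (Sum.inr (b (oU e)) : U ⊕ V) ∉ B := by
    intro e he hz
    rw [hZ, mem_filter] at hz
    push Not at hz
    exact hz he
  -- the size of Z
  have hZcard : Z.card ≤ ∑ x ∈ B, deg a b W x := by
    rw [sum_deg]
    have h1 : Z ⊆ ((EW a b W).filter fun e => (Sum.inl (a e) : U ⊕ V) ∈ B) ∪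
        ((EW a b W).filter fun e => (Sum.inl (a e) : U ⊕ V) ∉ B ∧
          (Sum.inr (b (oU e)) : U ⊕ V) ∈ B) := by
      intro e he
      rw [hZ, mem_filter] at he
      by_cases h : (Sum.inl (a e) : U ⊕ V) ∈ B
      · exact mem_union.2 (Or.inl (mem_filter.2 ⟨he.1, h⟩))
      · exact mem_union.2 (Or.inr (mem_filter.2 ⟨he.1, h, he.2.resolve_left h⟩))
    refine (card_le_card h1).trans ((card_union_le _ _).trans (Nat.add_le_add_left ?_ _))
    apply card_le_card_of_injOn oU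
    · intro e he
      rw [Finset.mem_coe, mem_filter] at he
      rw [Finset.mem_coe, mem_filter]
      exact ⟨(hoU e he.1 he.2.1).1, he.2.2⟩
    · intro e he f hf hef
      rw [Finset.mem_coe, mem_filter] at he hf
      obtain ⟨h2, h3, h4, h5⟩ := hoU e he.1 he.2.1
      obtain ⟨h6, h7, h8, h9⟩ := hoU f hf.1 hf.2.1
      have h10 : a f = a e := by rw [← h4, hef, h8]
      rcases h5 f hf.1 h10 with h11 | h11
      · exact h11.symm
      · exact absurd (h11.trans hef).symm h7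
  -- the pointwise inequality
  have hpt : ∑ x ∈ B, deg a b W x + 6 * (W \ S).card ≤ 3 * ∑ x ∈ W, deg a b W x := by
    have h1 : ∑ x ∈ B, deg a b W x = ∑ x ∈ W, if (x ∈ S ∨ 3 ≤ deg a b W x) then
        deg a b W x else 0 := by
      rw [hB, sum_filter]
    have h2 : 6 * (W \ S).card = ∑ x ∈ W, if x ∉ S then 6 else 0 := by
      rw [← sum_filter, sum_const, smul_eq_mul, mul_comm]
      congr 2
      ext x
      simp [mem_sdiff]
    rw [h1, h2, ← sum_add_distrib, mul_sum]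
    refine sum_le_sum fun x hx => ?_
    by_cases hxS : x ∈ S
    · rw [if_pos (Or.inl hxS), if_neg (by simpa using hxS)]
      omega
    · have h3 := hdeg x hx hxS
      rw [if_pos hxS]
      by_cases h4 : 3 ≤ deg a b W x
      · rw [if_pos (Or.inr h4)]
        omega
      · rw [if_neg (by push Not; exact ⟨hxS, by omega⟩)]
        omega
  rw [sum_deg_self] at hpt
  have hWS : (W \ S).card = W.card - S.card := card_sdiff_of_subset hSW
  have hSle : S.card ≤ W.card := card_le_card hSW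
  have hE2 : W.card ≤ (EW a b W).card + S.card := by
    have h1 : ∑ x ∈ W \ S, 2 ≤ ∑ x ∈ W \ S, deg a b W x :=
      sum_le_sum fun x hx => hdeg x (mem_sdiff.1 hx).1 (mem_sdiff.1 hx).2
    have h2 : ∑ x ∈ W \ S, deg a b W x ≤ ∑ x ∈ W, deg a b W x :=
      sum_le_sum_of_subset (sdiff_subset)
    rw [sum_deg_self] at h2
    rw [sum_const, smul_eq_mul, hWS] at h1
    omega
  have hlt : m * Z.card < (EW a b W).card := by
    by_contra hcon
    push Not at hcon
    have h1 : Z.card + 6 * W.card ≤ 6 * (EW a b W).card + 6 * S.card := by omega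
    have h2 : m * (Z.card + 6 * W.card) ≤ m * (6 * (EW a b W).card + 6 * S.card) :=
      Nat.mul_le_mul_left _ h1
    nlinarith [h2, hcon, hsp, hcard, hE2]
  obtain ⟨x, hx, horb⟩ := orbit (EW a b W) Z (fun e => oV (oU e)) m
    (by
      intro e he hz
      obtain ⟨h1, h2⟩ := hnZ e he hz
      exact (hoV _ (hoU e he h1).1 h2).1)
    (by
      intro e he hze f hf hzf hef
      obtain ⟨h1, h2⟩ := hnZ e he hze
      obtain ⟨h3, h4⟩ := hnZ f hf hzf
      obtain ⟨e1, e2, e3, e4⟩ := hoU e he h1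
      obtain ⟨f1, f2, f3, f4⟩ := hoU f hf h3
      obtain ⟨e5, e6, e7, e8⟩ := hoV _ e1 h2
      obtain ⟨f5, f6, f7, f8⟩ := hoV _ f1 h4
      have h5 : oU f = oU e := by
        have h6 : b (oU f) = b (oU e) := by rw [← f7, ← hef, e7]
        rcases e8 (oU f) f1 h6 with h7 | h7
        · exact h7
        · exact absurd (h7.trans hef).symm f6
      have h8 : a f = a e := by rw [← f3, h5, e3]
      rcases e4 f hf h8 with h9 | h9
      · exact h9.symm
      · exact absurd (h9.trans h5.symm).symm f2)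
    hlt
  refine ⟨fun i => (fun e => oV (oU e))^[i] x, fun i => oU ((fun e => oV (oU e))^[i] x), ?_⟩
  have hi : ∀ i, i < m → (fun e => oV (oU e))^[i] x ∈ EW a b W ∧
      (Sum.inl (a ((fun e => oV (oU e))^[i] x)) : U ⊕ V) ∉ B ∧
      (Sum.inr (b (oU ((fun e => oV (oU e))^[i] x))) : U ⊕ V) ∉ B := by
    intro i hi
    obtain ⟨h1, h2⟩ := horb i hi
    exact ⟨h1, hnZ _ h1 h2⟩
  have hs : ∀ i, (fun e => oV (oU e))^[i + 1] x = oV (oU ((fun e => oV (oU e))^[i] x)) :=
    fun i => Function.iterate_succ_apply' _ _ _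
  constructor
  · exact fun i h => (hi i h).1
  · exact fun i h => (hoU _ (hi i h).1 (hi i h).2.1).1
  · exact fun i h => (hoU _ (hi i h).1 (hi i h).2.1).2.2.1
  · exact fun i h => (hoU _ (hi i h).1 (hi i h).2.1).2.1
  · exact fun i h => (hoU _ (hi i h).1 (hi i h).2.1).2.2.2
  · exact fun i h => (hgood _ (mem_EW.1 (hi i h).1).1 (hi i h).2.1).1
  · intro i h
    rw [hs]
    have h1 := hi i (by omega)
    exact (hoV _ (hoU _ h1.1 h1.2.1).1 h1.2.2).2.2.1
  · intro i h
    rw [hs]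
    have h1 := hi i (by omega)
    exact (hoV _ (hoU _ h1.1 h1.2.1).1 h1.2.2).2.1
  · intro i h
    rw [hs]
    have h1 := hi i (by omega)
    exact (hoV _ (hoU _ h1.1 h1.2.1).1 h1.2.2).2.2.2
  · intro i h
    have h1 := hi i (by omega)
    exact (hgood _ (mem_EW.1 (hoU _ h1.1 h1.2.1).1).2 h1.2.2).1

end Pool.Agent.L0h67.TT
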