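import Mathlib

set_option autoImplicit false

namespace Pool.Agent.L0h67.TT

open Finset
open scoped Pointwise

/-- The values of a partial sum. -/
noncomputable def vals (p : ℕ) [NeZero p] (d : ℕ → ZMod p) (m : ℕ) : Finset (ZMod p) :=
  open Classical in
  univ.filter fun r => ∃ s : ℕ → Bool, ∑ j ∈ range m, (if s j then d j else 0) = r

theorem mem_vals {p : ℕ} [NeZero p] {d : ℕ → ZMod p} {m : ℕ} {r : ZMod p} :
    r ∈ vals p d m ↔ ∃ s : ℕ → Bool, ∑ j ∈ range m, (if s j then d j else 0) = r := by
  classical
  unfold vals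
  simp

theorem vals_add {p : ℕ} [NeZero p] (d : ℕ → ZMod p) (m : ℕ) :
    vals p d m + {0, d m} ⊆ vals p d (m + 1) := by
  classical
  intro x hx
  obtain ⟨y, hy, z, hz, rfl⟩ := Finset.mem_add.1 hx
  obtain ⟨s, rfl⟩ := mem_vals.1 hy
  rw [mem_insert, mem_singleton] at hz
  have hsum : ∀ b : Bool, ∑ j ∈ range m, (if Function.update s m b j then d j else 0) =
      ∑ j ∈ range m, (if s j then d j else 0) := by
    intro b
    refine sum_congr rfl fun j hj => ?_
    rw [Function.update_of_ne (by have := mem_range.1 hj; omega)]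
  rcases hz with rfl | rfl
  · refine mem_vals.2 ⟨Function.update s m false, ?_⟩
    rw [sum_range_succ, hsum, Function.update_self]
    simp
  · refine mem_vals.2 ⟨Function.update s m true, ?_⟩
    rw [sum_range_succ, hsum, Function.update_self]
    simp

theorem card_vals {p : ℕ} [hp : Fact p.Prime] (d : ℕ → ZMod p) (m : ℕ) (hd : ∀ j, j < m → d j ≠ 0) :
    min p (m + 1) ≤ (vals p d m).card := by
  classical
  induction m with
  | zero =>
    have : (0 : ZMod p) ∈ vals p d 0 := mem_vals.2 ⟨fun _ => false, by simp⟩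
    have h1 : 0 < (vals p d 0).card := card_pos.2 ⟨0, this⟩
    omega
  | succ m ih =>
    have h1 := ih fun j hj => hd j (by omega)
    have hne : (vals p d m).Nonempty := by
      rw [← card_pos]
      have := hp.out.pos
      omega
    have h2 := ZMod.cauchy_davenport hp.out hne (Finset.insert_nonempty (0 : ZMod p) {d m})
    have h3 : ({0, d m} : Finset (ZMod p)).card = 2 :=
      card_pair (hd m (by omega)).symm
    have h4 := card_le_card (vals_add d m)
    rw [h3] at h2
    omega

/-- Sums of `m ≥ p - 1` two-element sets cover everything. -/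
theorem mix {p : ℕ} [hp : Fact p.Prime] (d : ℕ → ZMod p) (m : ℕ) (hm : p ≤ m + 1)
    (hd : ∀ j, j < m → d j ≠ 0) (r : ZMod p) :
    ∃ s : ℕ → Bool, ∑ j ∈ range m, (if s j then d j else 0) = r := by
  have h1 := card_vals d m hd
  rw [min_eq_left hm] at h1
  have h2 : vals p d m = univ := by
    apply Finset.eq_univ_of_card
    rw [ZMod.card]
    apply le_antisymm
    · calc (vals p d m).card ≤ Fintype.card (ZMod p) := card_le_univ _
        _ = p := ZMod.card p
    · exact h1
  exact mem_vals.1 (h2 ▸ mem_univ r)

end Pool.Agent.L0h67.TT
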