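import Mathlib
import Pool.Agent.L0h67.TT.Deg
import Pool.Agent.L0h67.TT.Mix

set_option autoImplicit false

namespace Pool.Agent.L0h67.TT

open Finset

variable {U V E : Type} [Fintype E] [DecidableEq U] [DecidableEq V] [DecidableEq E]

/-- No short cycles: `c j` and `d j` are the two edges of the cycle at its `j`-th left vertex. -/
def NoCyc {U V E : Type} (a : E → U) (b : E → V) (g : ℕ) : Prop :=
  ∀ k, 1 ≤ k → k ≤ g → ∀ c d : ℕ → E, (∀ j, j < k → a (c j) = a (d j)) →
    (∀ j, j < k → c j ≠ d j) → (∀ i j, i < k → j < k → a (c i) = a (c j) → i = j) →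
    (∀ j, j + 1 < k → b (d j) = b (c (j + 1))) → b (d (k - 1)) = b (c 0) → False

/-- The right vertices of a chain. -/
def vx (b : E → V) (e e' : ℕ → E) (i : ℕ) : V := if i = 0 then b (e 0) else b (e' (i - 1))

omit [Fintype E] [DecidableEq V] [DecidableEq E] in
theorem vx_zero (b : E → V) (e e' : ℕ → E) : vx b e e' 0 = b (e 0) := rfl

omit [Fintype E] [DecidableEq V] [DecidableEq E] in
theorem vx_succ (b : E → V) (e e' : ℕ → E) (i : ℕ) : vx b e e' (i + 1) = b (e' i) := by
  unfold vx
  rw [if_neg (by omega)]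
  rfl

omit [DecidableEq E] in
theorem Chain.vx_eq {a : E → U} {b : E → V} {W S : Finset (U ⊕ V)} {m : ℕ} {e e' : ℕ → E}
    (h : Chain a b W S m e e') (i : ℕ) (hi : i < m) : b (e i) = vx b e e' i := by
  cases i with
  | zero => rfl
  | succ i =>
    rw [vx_succ]
    exact h.eqV i hi

omit [DecidableEq E] in
theorem Chain.injU {a : E → U} {b : E → V} {W S : Finset (U ⊕ V)} {m : ℕ} {e e' : ℕ → E}
    (h : Chain a b W S m e e') (hc : NoCyc a b m) : ∀ k, 1 ≤ k → ∀ i, i + k < m →
    a (e i) ≠ a (e (i + k)) := by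
  intro k
  induction k using Nat.strong_induction_on with
  | _ k ih =>
    intro hk i hi heq
    have hdist : ∀ i' j', i ≤ i' → i' < i + k → i ≤ j' → j' < i + k →
        a (e i') = a (e j') → i' = j' := by
      intro i' j' h1 h2 h3 h4 h5
      rcases Nat.lt_trichotomy i' j' with h6 | h6 | h6
      · exact absurd h5 (by
          have := ih (j' - i') (by omega) (by omega) i' (by omega)
          rwa [show i' + (j' - i') = j' by omega] at this)
      · exact h6
      · exact absurd h5.symm (by
          have := ih (i' - j') (by omega) (by omega) j' (by omega)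
          rwa [show j' + (i' - j') = i' by omega] at this)
    rcases h.onlyU i (by omega) (e (i + k)) (h.mem _ hi) heq.symm with h1 | h1
    · refine hc k hk (by omega) (fun l => e (i + l)) (fun l => e' (i + l)) ?_ ?_ ?_ ?_ ?_
      · exact fun j hj => (h.eqU _ (by omega)).symm
      · exact fun j hj => (h.neU _ (by omega)).symm
      · intro i' j' h2 h3 h4
        have := hdist (i + i') (i + j') (by omega) (by omega) (by omega) (by omega) h4
        omega
      · exact fun j hj => (h.eqV _ (by omega)).symm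
      · show b (e' (i + (k - 1))) = b (e (i + 0))
        rw [Nat.add_zero, ← h1, show i + k = (i + (k - 1)) + 1 by omega]
        exact (h.eqV _ (by omega)).symm
    · rcases Nat.lt_or_ge 1 k with h2 | h2
      · refine hc (k - 1) (by omega) (by omega) (fun l => e (i + 1 + l))
          (fun l => e' (i + 1 + l)) ?_ ?_ ?_ ?_ ?_
        · exact fun j hj => (h.eqU _ (by omega)).symm
        · exact fun j hj => (h.neU _ (by omega)).symm
        · intro i' j' h3 h4 h5
          have := hdist (i + 1 + i') (i + 1 + j') (by omega) (by omega) (by omega) (by omega) h5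
          omega
        · exact fun j hj => (h.eqV _ (by omega)).symm
        · show b (e' (i + 1 + (k - 1 - 1))) = b (e (i + 1 + 0))
          rw [Nat.add_zero, h.eqV i (by omega), ← h1,
            show i + k = (i + 1 + (k - 1 - 1)) + 1 by omega]
          exact (h.eqV _ (by omega)).symm
      · have hk1 : k = 1 := by omega
        subst hk1
        exact h.neV i hi h1

omit [DecidableEq E] in
theorem Chain.injU' {a : E → U} {b : E → V} {W S : Finset (U ⊕ V)} {m : ℕ} {e e' : ℕ → E}
    (h : Chain a b W S m e e') (hc : NoCyc a b m) (i j : ℕ) (hi : i < m) (hj : j < m)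
    (hij : a (e i) = a (e j)) : i = j := by
  rcases Nat.lt_trichotomy i j with h6 | h6 | h6
  · exact absurd hij (by
      have := h.injU hc (j - i) (by omega) i (by omega)
      rwa [show i + (j - i) = j by omega] at this)
  · exact h6
  · exact absurd hij.symm (by
      have := h.injU hc (i - j) (by omega) j (by omega)
      rwa [show j + (i - j) = i by omega] at this)

omit [DecidableEq E] in
theorem Chain.injV {a : E → U} {b : E → V} {W S : Finset (U ⊕ V)} {m : ℕ} {e e' : ℕ → E}
    (h : Chain a b W S m e e') (hc : NoCyc a b m) (i j : ℕ) (hij : i < j) (hj : j ≤ m) :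
    vx b e e' i ≠ vx b e e' j := by
  intro heq
  refine hc (j - i) (by omega) (by omega) (fun l => e (i + l)) (fun l => e' (i + l))
    ?_ ?_ ?_ ?_ ?_
  · exact fun j hj => (h.eqU _ (by omega)).symm
  · exact fun j hj => (h.neU _ (by omega)).symm
  · intro i' j' h2 h3 h4
    have := h.injU' hc (i + i') (i + j') (by omega) (by omega) h4
    omega
  · exact fun j hj => (h.eqV _ (by omega)).symm
  · show b (e' (i + (j - i - 1))) = b (e (i + 0))
    rw [Nat.add_zero, h.vx_eq i (by omega), heq, show j = (i + (j - i - 1)) + 1 by omega, vx_succ,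
      show i + (i + (j - i - 1) + 1 - i - 1) = i + (j - i - 1) by omega]

omit [DecidableEq E] in
theorem Chain.injV' {a : E → U} {b : E → V} {W S : Finset (U ⊕ V)} {m : ℕ} {e e' : ℕ → E}
    (h : Chain a b W S m e e') (hc : NoCyc a b m) (i j : ℕ) (hi : i ≤ m) (hj : j ≤ m)
    (hij : vx b e e' i = vx b e e' j) : i = j := by
  rcases Nat.lt_trichotomy i j with h6 | h6 | h6
  · exact absurd hij (h.injV hc i j h6 hj)
  · exact h6
  · exact absurd hij.symm (h.injV hc j i h6 hi)

/-- The constraint of the edge `e`: the label `(x, s)` of the left end forces the label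
`x + s ι e + τ e` of the right end. -/
def val {p : ℕ} (ι τ : E → ZMod p) (e : E) (z : ZMod p × Bool) : ZMod p :=
  z.1 + (if z.2 then ι e else 0) + τ e

/-- The labeling satisfies all edges inside `W`. -/
def Sat {p : ℕ} (a : E → U) (b : E → V) (ι τ : E → ZMod p) (W : Finset (U ⊕ V))
    (gU : U → ZMod p × Bool) (gV : V → ZMod p) : Prop :=
  ∀ e, Sum.inl (a e) ∈ W → Sum.inr (b e) ∈ W → val ι τ e (gU (a e)) = gV (b e)

/-- The inner vertices of a chain. -/
def inner (a : E → U) (b : E → V) (m : ℕ) (e e' : ℕ → E) : Finset (U ⊕ V) :=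
  ((range m).image fun i => Sum.inl (a (e i))) ∪ ((range (m - 1)).image fun i => Sum.inr (b (e' i)))

omit [Fintype E] [DecidableEq E] in
theorem mem_inner_inl {a : E → U} {b : E → V} {m : ℕ} {e e' : ℕ → E} {u : U} :
    Sum.inl u ∈ inner a b m e e' ↔ ∃ i, i < m ∧ a (e i) = u := by
  unfold inner
  simp

omit [Fintype E] [DecidableEq E] in
theorem mem_inner_inr {a : E → U} {b : E → V} {m : ℕ} {e e' : ℕ → E} {v : V} :
    Sum.inr v ∈ inner a b m e e' ↔ ∃ i, i + 1 < m ∧ b (e' i) = v := by
  unfold inner
  simp only [mem_union, mem_image, mem_range, reduceCtorEq, and_false, exists_false, false_or,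
    Sum.inr.injEq]
  constructor
  · rintro ⟨i, h1, h2⟩
    exact ⟨i, by omega, h2⟩
  · rintro ⟨i, h1, h2⟩
    exact ⟨i, by omega, h2⟩

omit [DecidableEq E] in
theorem extend_chain {p : ℕ} [hp : Fact p.Prime] {a : E → U} {b : E → V} {ι τ : E → ZMod p}
    (hι : ∀ e f, a e = a f → ι e = ι f → e = f) {W S : Finset (U ⊕ V)} {m : ℕ} {e e' : ℕ → E}
    (h : Chain a b W S m e e') (hc : NoCyc a b m) (hm : p ≤ m + 1)
    (gU : U → ZMod p × Bool) (gV : V → ZMod p)
    (hg : Sat a b ι τ (W \ inner a b m e e') gU gV) :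
    ∃ gU' gV', Sat a b ι τ W gU' gV' ∧ (∀ u, Sum.inl u ∈ S → gU' u = gU u) ∧
      ∀ v, Sum.inr v ∈ S → gV' v = gV v := by
  classical
  set v : ℕ → V := vx b e e' with hv
  set c : ℕ → ZMod p := fun j => τ (e' j) - τ (e j) with hcdef
  set d : ℕ → ZMod p := fun j => ι (e' j) - ι (e j) with hd
  obtain ⟨s, hs⟩ := mix d m hm (by
    intro j hj h0
    have h1 : ι (e' j) = ι (e j) := sub_eq_zero.1 h0
    exact h.neU j hj (hι _ _ (h.eqU j hj) h1)) (gV (v m) - gV (v 0) - ∑ j ∈ range m, c j)
  set y : ℕ → ZMod p := fun j => gV (v 0) + ∑ i ∈ range j, (c i + if s i then d i else 0) with hy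
  have hy0 : y 0 = gV (v 0) := by simp [hy]
  have hym : y m = gV (v m) := by
    simp only [hy]
    rw [sum_add_distrib, hs]
    ring
  have hys : ∀ j, y (j + 1) = y j + (c j + if s j then d j else 0) := by
    intro j
    simp only [hy]
    rw [sum_range_succ]
    ring
  set gV' : V → ZMod p := fun w => if h : ∃ j, j ≤ m ∧ v j = w then y h.choose else gV w
    with hgV'
  have hgV1 : ∀ j, j ≤ m → gV' (v j) = y j := by
    intro j hj
    have h1 : ∃ i, i ≤ m ∧ v i = v j := ⟨j, hj, rfl⟩
    simp only [hgV']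
    rw [dif_pos h1]
    congr 1
    exact h.injV' hc _ _ h1.choose_spec.1 hj h1.choose_spec.2
  have hgV2 : ∀ w, (∀ j, j ≤ m → v j ≠ w) → gV' w = gV w := by
    intro w hw
    simp only [hgV']
    rw [dif_neg]
    rintro ⟨j, hj, h1⟩
    exact hw j hj h1
  set gU' : U → ZMod p × Bool := fun w => if h : ∃ j, j < m ∧ a (e j) = w then
    (y h.choose - τ (e h.choose) - (if s h.choose then ι (e h.choose) else 0), s h.choose)
    else gU w with hgU'
  have hgU1 : ∀ j, j < m →
      gU' (a (e j)) = (y j - τ (e j) - (if s j then ι (e j) else 0), s j) := by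
    intro j hj
    have h1 : ∃ i, i < m ∧ a (e i) = a (e j) := ⟨j, hj, rfl⟩
    have h2 : h1.choose = j := h.injU' hc _ _ h1.choose_spec.1 hj h1.choose_spec.2
    simp only [hgU']
    rw [dif_pos h1, h2]
  have hgU2 : ∀ w, (∀ j, j < m → a (e j) ≠ w) → gU' w = gU w := by
    intro w hw
    simp only [hgU']
    rw [dif_neg]
    rintro ⟨j, hj, h1⟩
    exact hw j hj h1
  -- the ends keep their labels
  have hkeep : ∀ w, (∀ i, i + 1 < m → b (e' i) ≠ w) → gV' w = gV w := by
    intro w hw
    by_cases h1 : ∃ j, j ≤ m ∧ v j = w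
    · obtain ⟨j, hj, rfl⟩ := h1
      rw [hgV1 j hj]
      rcases Nat.eq_zero_or_pos j with rfl | hj0
      · exact hy0
      · rcases Nat.lt_or_ge j m with h2 | h2
        · exfalso
          obtain ⟨i, rfl⟩ := Nat.exists_eq_add_of_le' hj0
          exact hw i h2 (vx_succ b e e' i).symm
        · obtain rfl : j = m := by omega
          exact hym
    · push Not at h1
      exact hgV2 w h1
  refine ⟨gU', gV', ?_, ?_, ?_⟩
  · intro f hf1 hf2
    have hfW : f ∈ EW a b W := mem_EW.2 ⟨hf1, hf2⟩
    by_cases h1 : ∃ j, j < m ∧ a (e j) = a f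
    · obtain ⟨j, hj, h2⟩ := h1
      rcases h.onlyU j hj f hfW h2.symm with h3 | h3
      · subst h3
        rw [hgU1 j hj, h.vx_eq j hj, ← hv, hgV1 j (by omega)]
        unfold val
        dsimp only
        ring
      · have h4 : b f = v (j + 1) := by rw [h3, hv, vx_succ]
        rw [← h2, hgU1 j hj, h4, hgV1 (j + 1) (by omega), hys, h3]
        unfold val
        dsimp only
        simp only [hcdef, hd]
        cases s j
        · simp only [Bool.false_eq_true, if_false]
          ring
        · simp only [if_true]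
          ring
    · push Not at h1
      have h2 : ∀ i, i + 1 < m → b (e' i) ≠ b f := by
        intro i hi h3
        rcases h.onlyV i hi f hfW h3.symm with h4 | h4
        · exact h1 i (by omega) (by rw [h4, h.eqU i (by omega)])
        · exact h1 (i + 1) hi (by rw [h4])
      rw [hgU2 _ h1, hkeep _ h2]
      apply hg
      · rw [mem_sdiff]
        refine ⟨hf1, fun h3 => ?_⟩
        obtain ⟨i, hi, h4⟩ := mem_inner_inl.1 h3
        exact h1 i hi h4
      · rw [mem_sdiff]
        refine ⟨hf2, fun h3 => ?_⟩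
        obtain ⟨i, hi, h4⟩ := mem_inner_inr.1 h3
        exact h2 i hi h4
  · intro u hu
    apply hgU2
    intro j hj h1
    exact h.notU j hj (h1 ▸ hu)
  · intro w hw
    apply hkeep
    intro i hi h1
    exact h.notV i hi (h1 ▸ hw)

end Pool.Agent.L0h67.TT
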