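import Mathlib
import Pool.Agent.L0h67.TT.Extend

set_option autoImplicit false

namespace Pool.Agent.L0h67.TT

open Finset

variable {U V E : Type} [Fintype E] [DecidableEq U] [DecidableEq V] [DecidableEq E]

omit [DecidableEq E] in
/-- A vertex of degree at most one can be removed. -/
theorem extend_leaf {p : ℕ} {a : E → U} {b : E → V} {ι τ : E → ZMod p}
    {W S : Finset (U ⊕ V)} {x : U ⊕ V} (hxS : x ∉ S) (hx : x ∈ W) (hdeg : deg a b W x ≤ 1)
    (gU : U → ZMod p × Bool) (gV : V → ZMod p) (hg : Sat a b ι τ (W.erase x) gU gV) :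
    ∃ gU' gV', Sat a b ι τ W gU' gV' ∧ (∀ u, Sum.inl u ∈ S → gU' u = gU u) ∧
      ∀ v, Sum.inr v ∈ S → gV' v = gV v := by
  classical
  unfold deg at hdeg
  rw [card_le_one] at hdeg
  rcases x with u | w
  · by_cases h1 : ∃ e ∈ EW a b W, a e = u
    · obtain ⟨e, he, heu⟩ := h1
      refine ⟨Function.update gU u (gV (b e) - τ e, false), gV, ?_, ?_, fun _ _ => rfl⟩
      · intro f hf1 hf2
        have hf : f ∈ EW a b W := mem_EW.2 ⟨hf1, hf2⟩
        by_cases hfu : a f = u
        · have h2 : f = e := hdeg f (mem_filter.2 ⟨hf, Or.inl (by rw [hfu])⟩) e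
            (mem_filter.2 ⟨he, Or.inl (by rw [heu])⟩)
          subst h2
          rw [hfu, Function.update_self]
          unfold val
          simp
        · rw [Function.update_of_ne hfu]
          apply hg
          · rw [mem_erase]
            exact ⟨fun h => hfu (Sum.inl_injective h), hf1⟩
          · rw [mem_erase]
            exact ⟨by simp, hf2⟩
      · intro u' hu'
        rw [Function.update_of_ne]
        rintro rfl
        exact hxS hu'
    · push Not at h1
      refine ⟨gU, gV, ?_, fun _ _ => rfl, fun _ _ => rfl⟩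
      intro f hf1 hf2
      have hf : f ∈ EW a b W := mem_EW.2 ⟨hf1, hf2⟩
      apply hg
      · rw [mem_erase]
        exact ⟨fun h => h1 f hf (Sum.inl_injective h), hf1⟩
      · rw [mem_erase]
        exact ⟨by simp, hf2⟩
  · by_cases h1 : ∃ e ∈ EW a b W, b e = w
    · obtain ⟨e, he, heu⟩ := h1
      refine ⟨gU, Function.update gV w (val ι τ e (gU (a e))), ?_, fun _ _ => rfl, ?_⟩
      · intro f hf1 hf2
        have hf : f ∈ EW a b W := mem_EW.2 ⟨hf1, hf2⟩
        by_cases hfu : b f = w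
        · have h2 : f = e := hdeg f (mem_filter.2 ⟨hf, Or.inr (by rw [hfu])⟩) e
            (mem_filter.2 ⟨he, Or.inr (by rw [heu])⟩)
          subst h2
          rw [hfu, Function.update_self]
        · rw [Function.update_of_ne hfu]
          apply hg
          · rw [mem_erase]
            exact ⟨by simp, hf1⟩
          · rw [mem_erase]
            exact ⟨fun h => hfu (Sum.inr_injective h), hf2⟩
      · intro u' hu'
        rw [Function.update_of_ne]
        rintro rfl
        exact hxS hu'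
    · push Not at h1
      refine ⟨gU, gV, ?_, fun _ _ => rfl, fun _ _ => rfl⟩
      intro f hf1 hf2
      have hf : f ∈ EW a b W := mem_EW.2 ⟨hf1, hf2⟩
      apply hg
      · rw [mem_erase]
        exact ⟨by simp, hf1⟩
      · rw [mem_erase]
        exact ⟨fun h => h1 f hf (Sum.inr_injective h), hf2⟩

/-- Sparse sets of vertices which are much larger than `S` can be made smaller. -/
theorem reduce {p : ℕ} [hp : Fact p.Prime] {a : E → U} {b : E → V} {ι τ : E → ZMod p}
    (hι : ∀ e f, a e = a f → ι e = ι f → e = f) {W S : Finset (U ⊕ V)} {m : ℕ}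
    (hc : NoCyc a b m) (hm : p ≤ m + 1) (hSW : S ⊆ W)
    (hsp : 12 * m * (EW a b W).card ≤ (12 * m + 1) * W.card)
    (hcard : (12 * m + 2) * S.card < W.card) :
    ∃ W', S ⊆ W' ∧ W' ⊆ W ∧ W'.card < W.card ∧ ∀ gU gV, Sat a b ι τ W' gU gV →
      ∃ gU' gV', Sat a b ι τ W gU' gV' ∧ (∀ u, Sum.inl u ∈ S → gU' u = gU u) ∧
        ∀ v, Sum.inr v ∈ S → gV' v = gV v := by
  by_cases h1 : ∃ x ∈ W, x ∉ S ∧ deg a b W x ≤ 1
  · obtain ⟨x, hx, hxS, hd⟩ := h1
    refine ⟨W.erase x, ?_, erase_subset _ _, card_erase_lt_of_mem hx, fun gU gV hg =>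
      extend_leaf hxS hx hd gU gV hg⟩
    intro y hy
    rw [mem_erase]
    refine ⟨?_, hSW hy⟩
    rintro rfl
    exact hxS hy
  · push Not at h1
    obtain ⟨e, e', hch⟩ := chain a b W S m hSW (fun x hx hxS => h1 x hx hxS) hsp hcard
    have hm1 : 1 ≤ m := by
      have := hp.out.two_le
      omega
    refine ⟨W \ inner a b m e e', ?_, sdiff_subset, ?_, fun gU gV hg =>
      extend_chain hι hch hc hm gU gV hg⟩
    · intro y hy
      rw [mem_sdiff]
      refine ⟨hSW hy, fun h2 => ?_⟩
      rcases y with u | w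
      · obtain ⟨i, hi, rfl⟩ := mem_inner_inl.1 h2
        exact hch.notU i hi hy
      · obtain ⟨i, hi, rfl⟩ := mem_inner_inr.1 h2
        exact hch.notV i hi hy
    · apply card_lt_card
      rw [ssubset_iff_subset_ne]
      refine ⟨sdiff_subset, fun h2 => ?_⟩
      have h3 : (Sum.inl (a (e 0)) : U ⊕ V) ∈ W := (mem_EW.1 (hch.mem 0 (by omega))).1
      rw [← h2, mem_sdiff] at h3
      exact h3.2 (mem_inner_inl.2 ⟨0, by omega, rfl⟩)

/-- Minimal obstructions are small. -/
theorem small_obs {p : ℕ} [hp : Fact p.Prime] {a : E → U} {b : E → V} {ι τ : E → ZMod p}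
    (hι : ∀ e f, a e = a f → ι e = ι f → e = f) {S : Finset (U ⊕ V)} {m : ℕ}
    (hc : NoCyc a b m) (hm : p ≤ m + 1) (M : ℕ)
    (hsp : ∀ W : Finset (U ⊕ V), W.card ≤ M →
      12 * m * (EW a b W).card ≤ (12 * m + 1) * W.card)
    (K : (U → ZMod p × Bool) → (V → ZMod p) → Prop)
    (hK : ∀ gU gV gU' gV', (∀ u, Sum.inl u ∈ S → gU' u = gU u) →
      (∀ v, Sum.inr v ∈ S → gV' v = gV v) → K gU gV → K gU' gV') :
    ∀ W : Finset (U ⊕ V), S ⊆ W → W.card ≤ M → (∀ gU gV, K gU gV → ¬ Sat a b ι τ W gU gV) →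
      ∃ W' : Finset (U ⊕ V), W'.card ≤ (12 * m + 2) * S.card ∧
        ∀ gU gV, K gU gV → ¬ Sat a b ι τ W' gU gV := by
  intro W
  induction hn : W.card using Nat.strong_induction_on generalizing W with
  | _ n ih =>
    intro hSW hM hobs
    rcases Nat.lt_or_ge ((12 * m + 2) * S.card) W.card with h1 | h1
    · obtain ⟨W', h2, h3, h4, h5⟩ := reduce (τ := τ) hι hc hm hSW (hsp W (by omega)) h1
      refine ih W'.card (by omega) W' rfl h2 (by omega) ?_
      intro gU gV hKg hsat
      obtain ⟨gU', gV', h6, h7, h8⟩ := h5 gU gV hsat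
      exact hobs gU' gV' (hK gU gV gU' gV' h7 h8 hKg) h6
    · exact ⟨W, h1, hobs⟩

end Pool.Agent.L0h67.TT
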