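import Mathlib
import Pool.Agent.L0h67.TT.Obs

set_option autoImplicit false

namespace Pool.Agent.L0h67.TT

/-- **Local consistency of a game at level `k`.** The edge `e` joins the vertices `u e` and `v e`,
and a labeling `L` satisfies it if `π e (L (u e)) = L (v e)`. `H` is a nonempty family of partial
labelings of at most `k` vertices (`h x = none` means that `x` has no label) which satisfy all edges
between labeled vertices; `H` is closed under restriction, and every member of `H` which labels fewer
than `k` vertices can be extended, inside `H`, to any further vertex. Such a family exists if and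
only if the `k`-consistency algorithm does not refute the game, or, in other words, if Duplicator
wins the existential `k`-pebble game. -/
structure Consistent {U V E Q : Type} (u : E → U) (v : E → V) (π : E → Q → Q) (k : ℕ)
    (H : Set (U ⊕ V → Option Q)) : Prop where
  nonempty : H.Nonempty
  small : ∀ h ∈ H, {x | h x ≠ none}.Finite ∧ {x | h x ≠ none}.ncard ≤ k
  sat : ∀ h ∈ H, ∀ e α β, h (Sum.inl (u e)) = some α → h (Sum.inr (v e)) = some β → π e α = β
  restrict : ∀ h ∈ H, ∀ h', (∀ x, h' x = none ∨ h' x = h x) → h' ∈ H
  extend : ∀ h ∈ H, {x | h x ≠ none}.ncard < k → ∀ x, ∃ h' ∈ H, h' x ≠ none ∧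
    ∀ y, h y ≠ none → h' y = h y

open Finset

variable {U V E : Type} [Fintype U] [Fintype V] [Fintype E] [DecidableEq U] [DecidableEq V]
  [DecidableEq E]

/-- The total labeling `(gU, gV)` agrees with the partial labeling `h`. -/
def Compat {p : ℕ} {Q : Type} (cU : ZMod p × Bool → Q) (cV : ZMod p → Q)
    (h : U ⊕ V → Option Q) (gU : U → ZMod p × Bool) (gV : V → ZMod p) : Prop :=
  (∀ u α, h (Sum.inl u) = some α → α = cU (gU u)) ∧
    ∀ v β, h (Sum.inr v) = some β → β = cV (gV v)

omit [DecidableEq E] in
theorem pebbles {p : ℕ} [hp : Fact p.Prime] {a : E → U} {b : E → V} {ι τ : E → ZMod p}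
    (hι : ∀ e f, a e = a f → ι e = ι f → e = f) {m : ℕ}
    (hc : NoCyc a b m) (hm : p ≤ m + 1) (M : ℕ)
    (hsp : ∀ W : Finset (U ⊕ V), W.card ≤ M →
      12 * m * (EW a b W).card ≤ (12 * m + 1) * W.card)
    {Q : Type} [Fintype Q] (cU : ZMod p × Bool → Q) (cV : ZMod p → Q)
    (π : E → Q → Q) (hπ : ∀ e z, π e (cU z) = cV (val ι τ e z)) (k : ℕ)
    (hk : Fintype.card Q * ((12 * m + 2) * k) + k + 2 ≤ M) :
    ∃ H, Consistent a b π k H := by
  classical
  set M1 := Fintype.card Q * ((12 * m + 2) * k) + 2 with hM1
  set H : Set (U ⊕ V → Option Q) := {h | (univ.filter fun x => h x ≠ none).card ≤ k ∧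
    ∀ W : Finset (U ⊕ V), W.card ≤ M1 → ∃ gU gV, Compat cU cV h gU gV ∧ Sat a b ι τ W gU gV}
    with hH
  have hncard : ∀ h : U ⊕ V → Option Q, {x | h x ≠ none}.ncard =
      (univ.filter fun x => h x ≠ none).card := by
    intro h
    rw [← Set.ncard_coe_finset]
    congr 1
    ext x
    simp
  refine ⟨H, ?_, ?_, ?_, ?_, ?_⟩
  · -- the empty labeling
    refine ⟨fun _ => none, by simp, ?_⟩
    intro W hW
    by_contra hcon
    push Not at hcon
    obtain ⟨W', h1, h2⟩ := small_obs (S := ∅) (τ := τ) hι hc hm M hsp (fun _ _ => True)
      (fun _ _ _ _ _ _ _ => trivial) W (empty_subset _) (by omega)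
      (fun gU gV _ => hcon gU gV ⟨fun u α h => by simp at h, fun v β h => by simp at h⟩)
    have h3 : W' = ∅ := by
      rw [card_empty, mul_zero] at h1
      exact card_eq_zero.1 (by omega)
    subst h3
    exact h2 (fun _ => (0, false)) (fun _ => 0) trivial (fun e he => by simp at he)
  · intro h hh
    exact ⟨Set.toFinite _, by rw [hncard]; exact hh.1⟩
  · intro h hh e α β hα hβ
    obtain ⟨gU, gV, ⟨h1, h2⟩, h3⟩ := hh.2 {Sum.inl (a e), Sum.inr (b e)}
      ((card_insert_le _ _).trans (by rw [card_singleton]; omega))
    have h4 := h3 e (by simp) (by simp)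
    rw [h1 _ _ hα, h2 _ _ hβ, hπ, h4]
  · intro h hh h' hle
    refine ⟨le_trans (card_le_card ?_) hh.1, ?_⟩
    · intro x hx
      rw [mem_filter] at hx ⊢
      refine ⟨mem_univ _, ?_⟩
      rcases hle x with h1 | h1
      · exact absurd h1 hx.2
      · rw [← h1]
        exact hx.2
    · intro W hW
      obtain ⟨gU, gV, ⟨h1, h2⟩, h3⟩ := hh.2 W hW
      refine ⟨gU, gV, ⟨?_, ?_⟩, h3⟩
      · intro u α hα
        rcases hle (Sum.inl u) with h4 | h4
        · rw [h4] at hα
          simp at hα
        · exact h1 u α (h4 ▸ hα)
      · intro u α hα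
        rcases hle (Sum.inr u) with h4 | h4
        · rw [h4] at hα
          simp at hα
        · exact h2 u α (h4 ▸ hα)
  · intro h hh hlt x
    rw [hncard] at hlt
    by_cases hx : h x ≠ none
    · exact ⟨h, hh, hx, fun _ _ => rfl⟩
    push Not at hx
    by_contra hcon
    push Not at hcon
    -- every label of x gives an obstruction
    have hobs : ∀ c : Q, ∃ W' : Finset (U ⊕ V), W'.card ≤ (12 * m + 2) * k ∧
        ∀ gU gV, Compat cU cV (Function.update h x (some c)) gU gV → ¬ Sat a b ι τ W' gU gV := by
      intro c
      set h' := Function.update h x (some c) with hh'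
      have h1 : h' ∉ H := by
        intro h1
        obtain ⟨y, hy, hy'⟩ := hcon h' h1 (by rw [hh', Function.update_self]; simp)
        apply hy'
        rw [hh', Function.update_of_ne]
        rintro rfl
        exact hy hx
      have hdom : (univ.filter fun y => h' y ≠ none) = insert x (univ.filter fun y => h y ≠ none) := by
        ext y
        rw [mem_filter, mem_insert, mem_filter]
        by_cases hyx : y = x
        · subst hyx
          rw [hh', Function.update_self]
          simp
        · rw [hh', Function.update_of_ne hyx]
          simp [hyx]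
      have hcard : (univ.filter fun y => h' y ≠ none).card ≤ k := by
        rw [hdom]
        exact (card_insert_le _ _).trans (by omega)
      rw [hH, Set.mem_setOf_eq] at h1
      push Not at h1
      obtain ⟨W, hW, h2⟩ := h1 hcard
      obtain ⟨W', h3, h4⟩ := small_obs (S := univ.filter fun y => h' y ≠ none) (τ := τ) hι hc hm M
        hsp (Compat cU cV h') (by
          intro gU gV gU' gV' e1 e2 e3
          refine ⟨?_, ?_⟩
          · intro u α hα
            rw [e1 u (mem_filter.2 ⟨mem_univ _, by rw [hα]; simp⟩)]
            exact e3.1 u α hα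
          · intro u α hα
            rw [e2 u (mem_filter.2 ⟨mem_univ _, by rw [hα]; simp⟩)]
            exact e3.2 u α hα)
        (W ∪ univ.filter fun y => h' y ≠ none) subset_union_right
        ((card_union_le _ _).trans (by omega))
        (by
          intro gU gV hK hS
          refine h2 gU gV hK ?_
          intro e he1 he2
          exact hS e (mem_union_left _ he1) (mem_union_left _ he2))
      exact ⟨W', h3.trans (Nat.mul_le_mul_left _ hcard), h4⟩
    choose F hF1 hF2 using hobs
    have hUcard : (univ.biUnion F).card ≤ M1 := by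
      refine (card_biUnion_le).trans ?_
      refine (sum_le_sum fun c _ => hF1 c).trans ?_
      rw [sum_const, smul_eq_mul, card_univ]
      omega
    obtain ⟨gU, gV, h1, h2⟩ := hh.2 _ hUcard
    -- the label of x in this labeling
    obtain ⟨c, hcx⟩ : ∃ c : Q, Compat cU cV (Function.update h x (some c)) gU gV := by
      rcases x with u | w
      · refine ⟨cU (gU u), ?_, ?_⟩
        · intro u' α hα
          by_cases hu : u' = u
          · subst hu
            rw [Function.update_self] at hα
            exact (Option.some.inj hα).symm
          · rw [Function.update_of_ne (fun h => hu (Sum.inl_injective h))] at hα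
            exact h1.1 u' α hα
        · intro u' α hα
          rw [Function.update_of_ne (by simp)] at hα
          exact h1.2 u' α hα
      · refine ⟨cV (gV w), ?_, ?_⟩
        · intro u' α hα
          rw [Function.update_of_ne (by simp)] at hα
          exact h1.1 u' α hα
        · intro u' α hα
          by_cases hu : u' = w
          · subst hu
            rw [Function.update_self] at hα
            exact (Option.some.inj hα).symm
          · rw [Function.update_of_ne (fun h => hu (Sum.inr_injective h))] at hα
            exact h1.2 u' α hα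
    refine hF2 c gU gV hcx ?_
    intro e he1 he2
    exact h2 e (mem_biUnion.2 ⟨c, mem_univ _, he1⟩) (mem_biUnion.2 ⟨c, mem_univ _, he2⟩)

end Pool.Agent.L0h67.TT
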