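import Mathlib
import Pool.Agent.L0h67.TT.Forth
import Pool.Agent.L0h67.TT.Bsw

set_option autoImplicit false

namespace Pool.Agent.L0h67.TT

open Finset

/-- The formula of a game, with a variable `(x, c)` for every vertex `x` and every label `c`: every
vertex has a label, no vertex has two labels, and every edge is satisfied. -/
def gameCNF {U V E Q : Type} [Fintype Q] [DecidableEq U] [DecidableEq V] [DecidableEq Q]
    (u : E → U) (v : E → V) (π : E → Q → Q) : Set (Clause ((U ⊕ V) × Q)) :=
  {C | (∃ x, C = univ.image fun c => ((x, c), true)) ∨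
    (∃ x c c', c ≠ c' ∧ C = {((x, c), false), ((x, c'), false)}) ∨
    ∃ e α β, π e α ≠ β ∧ C = {((Sum.inl (u e), α), false), ((Sum.inr (v e), β), false)}}

/-- `L` is a resolution refutation of the set of clauses `F`: it contains the empty clause, and
each clause `C` in `L` is in `F` or follows by resolution on a variable `x` (and weakening) from two
earlier clauses `A`, `B`: it contains all literals of `A` other than `x` and all literals of `B`
other than the negation of `x`. -/
def IsRefutation {X : Type} [DecidableEq X] (F : Set (Clause X)) (L : List (Clause X)) : Prop :=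
  ∅ ∈ L ∧ ∀ (i : ℕ) (C : Clause X), L[i]? = some C → C ∈ F ∨
    ∃ A B x, A ∈ L.take i ∧ B ∈ L.take i ∧ A ⊆ insert (x, true) C ∧ B ⊆ insert (x, false) C

theorem IsRefutation.der {X : Type} [DecidableEq X] {F : Set (Clause X)} {L : List (Clause X)}
    (h : IsRefutation F L) : Der F L.toFinset ∅ := by
  have key : ∀ (i : ℕ) (C : Clause X), L[i]? = some C → Der F L.toFinset C := by
    intro i
    induction i using Nat.strong_induction_on with
    | _ i ih =>
      intro C hC
      have hmem : C ∈ L.toFinset := by
        rw [List.mem_toFinset]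
        exact List.mem_of_getElem? hC
      rcases h.2 i C hC with h1 | ⟨A, B, x, hA, hB, h1, h2⟩
      · exact Der.ax C h1 hmem
      · have hlt : ∀ D ∈ L.take i, Der F L.toFinset D := by
          intro D hD
          obtain ⟨j, hj, rfl⟩ := List.getElem_of_mem hD
          rw [List.length_take] at hj
          apply ih j (by omega)
          rw [List.getElem_take]
          exact List.getElem?_eq_getElem (by omega)
        exact Der.res A B C x (hlt A hA) (hlt B hB) h1 h2 hmem
  obtain ⟨i, hi, h1⟩ := List.getElem_of_mem h.1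
  apply key i
  rw [← h1]
  exact List.getElem?_eq_getElem hi

theorem strat_of_consistent {U V E Q : Type} [Fintype U] [Fintype V] [Fintype Q] [Nonempty Q]
    [DecidableEq U] [DecidableEq V] [DecidableEq Q] {u : E → U} {v : E → V} {π : E → Q → Q}
    {k : ℕ} {H : Set (U ⊕ V → Option Q)} (hH : Consistent u v π k H) (w : ℕ) (hw : w ≤ k) :
    ∃ H', Strat (gameCNF u v π) univ w H' := by
  classical
  refine ⟨{σ | (univ.filter fun z => σ z ≠ none).card ≤ w ∧ ∃ h ∈ H, ∀ x c b,
    σ (x, c) = some b → h x ≠ none ∧ (b = true ↔ h x = some c)}, ?_, ?_, ?_, ?_, ?_, ?_⟩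
  · obtain ⟨h, hh⟩ := hH.nonempty
    exact ⟨fun _ => none, by simp, h, hh, fun x c b hb => by simp at hb⟩
  · exact fun σ hσ => hσ.1
  · exact fun σ _ z _ => mem_univ z
  · rintro σ ⟨-, h, hh, hσ⟩ C hC hf
    rcases hC with ⟨x, rfl⟩ | ⟨x, c, c', hne, rfl⟩ | ⟨e, α, β, hne, rfl⟩
    · have h1 : ∀ c, σ (x, c) = some false := by
        intro c
        have := hf ((x, c), true) (mem_image_of_mem _ (mem_univ c))
        simpa using this
      obtain ⟨c0⟩ := (inferInstance : Nonempty Q)
      have h2 := (hσ x c0 false (h1 c0)).1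
      rcases hx : h x with _ | c
      · exact h2 hx
      · have h3 := (hσ x c false (h1 c)).2.2 hx
        simp at h3
    · have h1 := hf ((x, c), false) (by simp)
      have h2 := hf ((x, c'), false) (by simp)
      have h3 := (hσ x c true (by simpa using h1)).2.1 rfl
      have h4 := (hσ x c' true (by simpa using h2)).2.1 rfl
      rw [h3] at h4
      exact hne (Option.some.inj h4)
    · have h1 := hf ((Sum.inl (u e), α), false) (by simp)
      have h2 := hf ((Sum.inr (v e), β), false) (by simp)
      have h3 := (hσ _ α true (by simpa using h1)).2.1 rfl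
      have h4 := (hσ _ β true (by simpa using h2)).2.1 rfl
      exact hne (hH.sat h hh e α β h3 h4)
  · rintro σ ⟨h1, h, hh, hσ⟩ σ' hle
    refine ⟨le_trans (card_le_card ?_) h1, h, hh, ?_⟩
    · intro z hz
      rw [mem_filter] at hz ⊢
      refine ⟨mem_univ _, ?_⟩
      rcases hle z with h2 | h2
      · exact absurd h2 hz.2
      · rw [← h2]
        exact hz.2
    · intro x c b hb
      rcases hle (x, c) with h2 | h2
      · rw [h2] at hb
        simp at hb
      · exact hσ x c b (h2 ▸ hb)
  · rintro σ ⟨h1, h, hh, hσ⟩ hlt ⟨x, c⟩ -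
    by_cases hx : σ (x, c) ≠ none
    · exact ⟨σ, ⟨h1, h, hh, hσ⟩, hx, fun _ _ => rfl⟩
    push Not at hx
    set h0 : U ⊕ V → Option Q := fun y => if ∃ c', σ (y, c') ≠ none then h y else none with hh0
    have hh0H : h0 ∈ H := by
      refine hH.restrict h hh h0 fun y => ?_
      simp only [hh0]
      split_ifs
      · exact Or.inr rfl
      · exact Or.inl rfl
    have hcard : {y | h0 y ≠ none}.ncard < k := by
      have h2 : {y | h0 y ≠ none} ⊆
          (((univ.filter fun z => σ z ≠ none).image Prod.fst : Finset (U ⊕ V)) : Set (U ⊕ V)) := by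
        intro y hy
        have hy' : h0 y ≠ none := hy
        simp only [hh0] at hy'
        by_cases h3 : ∃ c', σ (y, c') ≠ none
        · obtain ⟨c', hc'⟩ := h3
          exact mem_coe.2 (mem_image.2 ⟨(y, c'), mem_filter.2 ⟨mem_univ _, hc'⟩, rfl⟩)
        · rw [if_neg h3] at hy'
          exact absurd rfl hy'
      have h3 := Set.ncard_le_ncard h2 (Set.toFinite _)
      rw [Set.ncard_coe_finset] at h3
      have h4 := card_image_le (s := univ.filter fun z => σ z ≠ none)
        (f := (Prod.fst : (U ⊕ V) × Q → U ⊕ V))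
      omega
    obtain ⟨h', hh', h2, h3⟩ := hH.extend h0 hh0H hcard x
    refine ⟨Function.update σ (x, c) (some (decide (h' x = some c))), ⟨?_, h', hh', ?_⟩, ?_, ?_⟩
    · have h4 : (univ.filter fun z =>
          Function.update σ (x, c) (some (decide (h' x = some c))) z ≠ none) ⊆
          insert (x, c) (univ.filter fun z => σ z ≠ none) := by
        intro z hz
        rw [mem_filter] at hz
        rw [mem_insert, mem_filter]
        by_cases hzx : z = (x, c)
        · exact Or.inl hzx
        · rw [Function.update_of_ne hzx] at hz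
          exact Or.inr hz
      exact (card_le_card h4).trans ((card_insert_le _ _).trans (by omega))
    · intro y c' b hb
      by_cases hzx : (y, c') = (x, c)
      · rw [hzx, Function.update_self] at hb
        obtain ⟨rfl, rfl⟩ := Prod.mk.inj hzx
        obtain rfl := Option.some.inj hb
        exact ⟨h2, decide_eq_true_iff⟩
      · rw [Function.update_of_ne hzx] at hb
        have h5 := hσ y c' b hb
        have h6 : h0 y = h y := by
          simp only [hh0]
          rw [if_pos ⟨c', by rw [hb]; simp⟩]
        rw [h3 y (by rw [h6]; exact h5.1), h6]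
        exact h5
    · rw [Function.update_self]
      simp
    · intro z hz
      rw [Function.update_of_ne]
      rintro rfl
      exact hz hx

theorem gameCNF_card {U V E Q : Type} [Fintype Q] [DecidableEq U] [DecidableEq V] [DecidableEq Q]
    (u : E → U) (v : E → V) (π : E → Q → Q) :
    ∀ C ∈ gameCNF u v π, C.card ≤ Fintype.card Q + 2 := by
  rintro C (⟨x, rfl⟩ | ⟨x, c, c', -, rfl⟩ | ⟨e, α, β, -, rfl⟩)
  · refine card_image_le.trans ?_
    rw [card_univ]
    omega
  · exact card_le_two.trans (by omega)
  · exact card_le_two.trans (by omega)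

/-- Local consistency at level `k` makes refutations long. -/
theorem long_refutation {U V E Q : Type} [Fintype U] [Fintype V] [Fintype Q] [Nonempty Q]
    [DecidableEq U] [DecidableEq V] [DecidableEq Q] {u : E → U} {v : E → V} {π : E → Q → Q}
    {k : ℕ} {H : Set (U ⊕ V → Option Q)} (hH : Consistent u v π k H)
    (L : List (Clause ((U ⊕ V) × Q))) (hL : IsRefutation (gameCNF u v π) L) (d N : ℕ)
    (hN : Fintype.card ((U ⊕ V) × Q) ≤ N) (hN0 : 0 < N) (hd : 1 ≤ d) (hdN : d ≤ 2 * N)
    (hdk : 2 * d + Fintype.card Q + 3 ≤ k) :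
    Real.exp ((d : ℝ) ^ 2 / (2 * N)) ≤ L.length := by
  classical
  obtain ⟨H', hs⟩ := strat_of_consistent hH ((d + Fintype.card Q + 2) + d) (by omega)
  have h1 := bsw N d (Fintype.card Q + 2) (d + Fintype.card Q + 2) hN hN0 hd hdN (by omega)
    (by omega) d (univ : Finset ((U ⊕ V) × Q)).card univ (le_refl _) (gameCNF u v π) L.toFinset H'
    (gameCNF_card u v π) (fun _ _ _ _ => mem_univ _) hs hL.der
  have h2 : ((L.toFinset.filter fun C => d < C.card).card : ℝ) ≤ L.length := by
    have : (L.toFinset.filter fun C => d < C.card).card ≤ L.length :=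
      (card_filter_le _ _).trans (List.toFinset_card_le L)
    exact_mod_cast this
  have hN1 : (0 : ℝ) < N := by exact_mod_cast hN0
  have hr0 : 0 ≤ 1 - (d : ℝ) / (2 * N) := by
    have : (d : ℝ) ≤ 2 * N := by exact_mod_cast hdN
    rw [sub_nonneg, div_le_one (by positivity)]
    exact this
  have h3 : (1 - (d : ℝ) / (2 * N)) ^ d ≤ Real.exp (-((d : ℝ) ^ 2 / (2 * N))) := by
    have h4 : 1 - (d : ℝ) / (2 * N) ≤ Real.exp (-((d : ℝ) / (2 * N))) := by
      have := Real.add_one_le_exp (-((d : ℝ) / (2 * N)))
      linarith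
    calc (1 - (d : ℝ) / (2 * N)) ^ d ≤ Real.exp (-((d : ℝ) / (2 * N))) ^ d :=
          pow_le_pow_left₀ hr0 h4 d
      _ = Real.exp (-((d : ℝ) ^ 2 / (2 * N))) := by
        rw [← Real.exp_nat_mul]
        congr 1
        ring
  have h4 : 1 ≤ Real.exp (-((d : ℝ) ^ 2 / (2 * N))) * L.length := by
    calc (1 : ℝ) ≤ (1 - (d : ℝ) / (2 * N)) ^ d *
          ((L.toFinset.filter fun C => d < C.card).card : ℝ) := h1
      _ ≤ Real.exp (-((d : ℝ) ^ 2 / (2 * N))) * L.length :=
        mul_le_mul h3 h2 (by positivity) (Real.exp_pos _).le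
  have h5 := mul_le_mul_of_nonneg_left h4 (Real.exp_pos ((d : ℝ) ^ 2 / (2 * N))).le
  rwa [mul_one, ← mul_assoc, ← Real.exp_add, add_neg_cancel, Real.exp_zero, one_mul] at h5

end Pool.Agent.L0h67.TT
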