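import Mathlib
import Pool.Agent.L0h67.TT.Extend

set_option autoImplicit false

namespace Pool.Agent.L0h67.TT

open Finset

variable {n D : ℕ}

/-- The possible cycles with `k + 1` left vertices. -/
abbrev Cf (n D k : ℕ) : Type := (Fin (k + 1) → Fin n) × (Fin (k + 1) → Fin D) × (Fin (k + 1) → Fin D)

/-- The cycle is present in the graph given by `f`. -/
def IsCyc {k : ℕ} (f : Fin n × Fin D → Fin n) (c : Cf n D k) : Prop :=
  Function.Injective c.1 ∧ (∀ j, c.2.1 j ≠ c.2.2 j) ∧
    ∀ j, f (c.1 j, c.2.2 j) = f (c.1 (j + 1), c.2.1 (j + 1))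

theorem count_cyc {k : ℕ} (c : Cf n D k) [DecidablePred fun f : Fin n × Fin D → Fin n => IsCyc f c] :
    (univ.filter fun f : Fin n × Fin D → Fin n => IsCyc f c).card * n ^ (k + 1) ≤ n ^ (n * D) := by
  classical
  by_cases hinj : Function.Injective c.1 ∧ (∀ j, c.2.1 j ≠ c.2.2 j)
  · set R : Finset (Fin n × Fin D) := univ.image fun j => (c.1 j, c.2.2 j) with hR
    have hRc : R.card = k + 1 := by
      rw [hR, card_image_of_injective, card_univ, Fintype.card_fin]
      intro i j hij
      exact hinj.1 (Prod.mk.inj hij).1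
    have h1 : (univ.filter fun f : Fin n × Fin D → Fin n => IsCyc f c).card ≤
        Fintype.card ({x // x ∉ R} → Fin n) := by
      rw [← card_univ]
      apply card_le_card_of_injOn (fun f x => f x.1) (fun _ _ => mem_coe.2 (mem_univ _))
      intro f hf g hg hfg
      have hf' : IsCyc f c := (mem_filter.1 (mem_coe.1 hf)).2
      have hg' : IsCyc g c := (mem_filter.1 (mem_coe.1 hg)).2
      funext x
      by_cases hx : x ∈ R
      · rw [hR, mem_image] at hx
        obtain ⟨j, -, rfl⟩ := hx
        rw [hf'.2.2 j, hg'.2.2 j]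
        have hx2 : (c.1 (j + 1), c.2.1 (j + 1)) ∉ R := by
          rw [hR, mem_image]
          rintro ⟨i, -, hi⟩
          obtain ⟨h2, h3⟩ := Prod.mk.inj hi
          obtain rfl := hinj.1 h2
          exact hinj.2 _ h3.symm
        exact congrFun hfg ⟨_, hx2⟩
      · exact congrFun hfg ⟨x, hx⟩
    have h2 : Fintype.card {x // x ∉ R} + (k + 1) = n * D := by
      rw [← hRc, Fintype.card_subtype_compl, Fintype.card_coe, Fintype.card_prod, Fintype.card_fin,
        Fintype.card_fin]
      have : R.card ≤ n * D := by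
        have := card_le_univ R
        rwa [Fintype.card_prod, Fintype.card_fin, Fintype.card_fin] at this
      omega
    rw [Fintype.card_fun, Fintype.card_fin] at h1
    calc _ ≤ n ^ Fintype.card {x // x ∉ R} * n ^ (k + 1) := Nat.mul_le_mul_right _ h1
      _ = n ^ (n * D) := by rw [← pow_add, h2]
  · have h1 : (univ.filter fun f : Fin n × Fin D → Fin n => IsCyc f c) = ∅ := by
      rw [filter_eq_empty_iff]
      intro f _ hf
      exact hinj ⟨hf.1, hf.2.1⟩
    rw [h1]
    simp

/-- The number of short cycles. -/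
noncomputable def numCyc (g : ℕ) (f : Fin n × Fin D → Fin n) : ℕ :=
  open Classical in
  ∑ k ∈ range g, (univ.filter fun c : Cf n D k => IsCyc f c).card

/-- A bound for the average number of short cycles. -/
def cycBd (D g : ℕ) : ℕ := ∑ k ∈ range g, D ^ (2 * (k + 1))

theorem sum_numCyc (g : ℕ) (hn : 1 ≤ n) :
    ∑ f : Fin n × Fin D → Fin n, numCyc g f ≤ cycBd D g * n ^ (n * D) := by
  classical
  unfold numCyc cycBd
  rw [sum_comm, sum_mul]
  refine sum_le_sum fun k _ => ?_
  have h1 : ∑ f : Fin n × Fin D → Fin n, (univ.filter fun c : Cf n D k => IsCyc f c).card =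
      ∑ c : Cf n D k, (univ.filter fun f : Fin n × Fin D → Fin n => IsCyc f c).card := by
    simp only [card_filter]
    exact sum_comm
  have h2 : (∑ c : Cf n D k, (univ.filter fun f : Fin n × Fin D → Fin n => IsCyc f c).card) *
      n ^ (k + 1) ≤ (n ^ (k + 1) * D ^ (2 * (k + 1))) * n ^ (n * D) := by
    rw [sum_mul]
    refine (sum_le_sum fun c _ => count_cyc c).trans ?_
    rw [sum_const, smul_eq_mul, card_univ]
    apply Nat.mul_le_mul_right
    rw [Fintype.card_prod, Fintype.card_prod, Fintype.card_fun, Fintype.card_fun, Fintype.card_fin,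
      Fintype.card_fin, Fintype.card_fin]
    apply le_of_eq
    ring
  rw [h1]
  have h3 : 0 < n ^ (k + 1) := by positivity
  apply Nat.le_of_mul_le_mul_right _ h3
  calc _ ≤ (n ^ (k + 1) * D ^ (2 * (k + 1))) * n ^ (n * D) := h2
    _ = _ := by ring

theorem count_many (g : ℕ) (hn : 1 ≤ n) :
    2 * (univ.filter fun f : Fin n × Fin D → Fin n => 2 * cycBd D g < numCyc g f).card ≤
      n ^ (n * D) := by
  classical
  have h1 := sum_numCyc (n := n) (D := D) g hn
  have h2 : (univ.filter fun f : Fin n × Fin D → Fin n => 2 * cycBd D g < numCyc g f).card *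
      (2 * cycBd D g + 1) ≤ ∑ f : Fin n × Fin D → Fin n, numCyc g f := by
    calc _ = ∑ f ∈ (univ.filter fun f : Fin n × Fin D → Fin n => 2 * cycBd D g < numCyc g f),
          (2 * cycBd D g + 1) := by rw [sum_const, smul_eq_mul]
      _ ≤ ∑ f ∈ (univ.filter fun f : Fin n × Fin D → Fin n => 2 * cycBd D g < numCyc g f),
          numCyc g f := sum_le_sum fun f hf => (mem_filter.1 hf).2
      _ ≤ _ := sum_le_sum_of_subset (subset_univ _)
  have h3 := h2.trans h1
  have h4 : 0 < 2 * cycBd D g + 1 := by omega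
  apply Nat.le_of_mul_le_mul_right _ h4
  calc 2 * (univ.filter fun f : Fin n × Fin D → Fin n => 2 * cycBd D g < numCyc g f).card *
        (2 * cycBd D g + 1)
      = 2 * ((univ.filter fun f : Fin n × Fin D → Fin n => 2 * cycBd D g < numCyc g f).card *
        (2 * cycBd D g + 1)) := by ring
    _ ≤ 2 * (cycBd D g * n ^ (n * D)) := Nat.mul_le_mul_left _ h3
    _ ≤ n ^ (n * D) * (2 * cycBd D g + 1) := by nlinarith [Nat.zero_le (n ^ (n * D))]

/-- The edges which are deleted. -/
noncomputable def del (g : ℕ) (f : Fin n × Fin D → Fin n) : Finset (Fin n × Fin D) :=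
  open Classical in
  (range g).biUnion fun k =>
    (univ.filter fun c : Cf n D k => IsCyc f c).image fun c => (c.1 0, c.2.2 0)

theorem card_del (g : ℕ) (f : Fin n × Fin D → Fin n) : (del g f).card ≤ numCyc g f := by
  classical
  unfold del numCyc
  exact card_biUnion_le.trans (sum_le_sum fun k _ => card_image_le)

theorem noCyc (g : ℕ) (f : Fin n × Fin D → Fin n) :
    NoCyc (fun e : {x // x ∉ del g f} => e.1.1) (fun e : {x // x ∉ del g f} => f e.1) g := by
  classical
  intro k hk hkg c d h1 h2 h3 h4 h5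
  obtain ⟨k, rfl⟩ := Nat.exists_eq_add_of_le' hk
  have hcyc : IsCyc f ((fun j => (c j).1.1, fun j => (c j).1.2, fun j => (d j).1.2) :
      Cf n D k) := by
    refine ⟨?_, ?_, ?_⟩
    · intro i j hij
      exact Fin.ext (h3 i j i.2 j.2 hij)
    · intro j hj
      refine h2 j j.2 (Subtype.ext (Prod.ext (h1 j j.2) ?_))
      exact hj
    · intro j
      have e1 : f ((c j).1.1, (d j).1.2) = f (d j).1 := by
        congr 1
        exact Prod.ext (h1 j j.2) rfl
      have e2 : f ((c (j + 1 : Fin (k + 1))).1.1, (c (j + 1 : Fin (k + 1))).1.2) =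
          f (c (j + 1 : Fin (k + 1))).1 := rfl
      show f ((c j).1.1, (d j).1.2) = f ((c (j + 1 : Fin (k + 1))).1.1, (c (j + 1 : Fin (k + 1))).1.2)
      rw [e1, e2]
      rcases Nat.lt_or_ge (j : ℕ) k with hj | hj
      · have h6 : ((j + 1 : Fin (k + 1)) : ℕ) = (j : ℕ) + 1 := by
          rw [Fin.val_add_one]
          rw [if_neg]
          intro h
          rw [h] at hj
          simp at hj
        rw [h6]
        exact h4 j (by omega)
      · have hjk : (j : ℕ) = k := by omega
        have h6 : ((j + 1 : Fin (k + 1)) : ℕ) = 0 := by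
          rw [Fin.val_add_one, if_pos]
          exact Fin.ext hjk
        rw [h6, hjk]
        exact h5
  apply (d 0).2
  unfold del
  refine mem_biUnion.2 ⟨k, mem_range.2 (by omega), mem_image.2 ⟨_, mem_filter.2 ⟨mem_univ _, hcyc⟩,
    ?_⟩⟩
  exact Prod.ext (h1 0 (by omega)) rfl

end Pool.Agent.L0h67.TT
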