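import Mathlib
import Pool.Agent.L0h67.TT.Extend

set_option autoImplicit false

namespace Pool.Agent.L0h67.TT

open Finset

theorem count_eq {α : Type} [Fintype α] [DecidableEq α] (p : ℕ) [NeZero p] (R : Finset α)
    (w : α → ZMod p) :
    (univ.filter fun τ : α → ZMod p => ∀ x ∈ R, τ x = w x).card * p ^ R.card =
      p ^ Fintype.card α := by
  classical
  have h1 : (univ.filter fun τ : α → ZMod p => ∀ x ∈ R, τ x = w x) =
      Fintype.piFinset (fun x => if x ∈ R then {w x} else univ) := by
    ext f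
    rw [mem_filter, Fintype.mem_piFinset]
    constructor
    · rintro ⟨-, h⟩ x
      by_cases hx : x ∈ R
      · rw [if_pos hx, mem_singleton]
        exact h x hx
      · rw [if_neg hx]
        exact mem_univ _
    · intro h
      refine ⟨mem_univ _, fun x hx => ?_⟩
      have := h x
      rwa [if_pos hx, mem_singleton] at this
  rw [h1, Fintype.card_piFinset]
  have h2 : ∀ x, (if x ∈ R then {w x} else (univ : Finset (ZMod p))).card =
      if x ∈ R then 1 else p := by
    intro x
    split_ifs
    · exact card_singleton _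
    · rw [card_univ, ZMod.card]
  rw [prod_congr rfl (fun x _ => h2 x), prod_ite, prod_const, prod_const, one_pow, one_mul,
    ← pow_add]
  have h3 : (univ.filter fun x => x ∈ R) = R := by ext; simp
  have h4 : (univ.filter fun x : α => x ∉ R).card + R.card = Fintype.card α := by
    rw [← card_univ, ← card_filter_add_card_filter_not (s := (univ : Finset α)) (fun x => x ∈ R), h3]
    omega
  rw [h4]

/-- A random choice of the shifts gives a game of small value. -/
theorem exists_tau (n D p : ℕ) [hp : Fact p.Prime] (hn : 1 ≤ n) (hD : 4 * 2 ^ D < p)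
    (f : Fin n × Fin D → Fin n) (ι : Fin n × Fin D → ZMod p) :
    ∃ τ : Fin n × Fin D → ZMod p, ∀ (A B : Fin n → ZMod p × Bool),
      (univ.filter fun e : Fin n × Fin D => (val ι τ e (A e.1), false) = B (f e)).card < 3 * n := by
  classical
  by_contra hcon
  push Not at hcon
  set F : ((Fin n → ZMod p × Bool) × (Fin n → ZMod p × Bool)) × Finset (Fin n × Fin D) →
      Finset (Fin n × Fin D → ZMod p) := fun c => univ.filter fun τ => ∀ e ∈ c.2,
        τ e = (c.1.2 (f e)).1 - (c.1.1 e.1).1 - (if (c.1.1 e.1).2 then ι e else 0) with hF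
  have hsub : (univ : Finset (Fin n × Fin D → ZMod p)) ⊆
      ((univ : Finset ((Fin n → ZMod p × Bool) × (Fin n → ZMod p × Bool))) ×ˢ
        (powersetCard (3 * n) (univ : Finset (Fin n × Fin D)))).biUnion F := by
    intro τ _
    obtain ⟨A, B, hAB⟩ := hcon τ
    obtain ⟨R, hR, hRc⟩ := exists_subset_card_eq hAB
    refine mem_biUnion.2 ⟨((A, B), R), mem_product.2 ⟨mem_univ _, mem_powersetCard.2
      ⟨subset_univ _, hRc⟩⟩, mem_filter.2 ⟨mem_univ _, fun e he => ?_⟩⟩
    have h1 := (mem_filter.1 (hR he)).2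
    have h2 : val ι τ e (A e.1) = (B (f e)).1 := by rw [← h1]
    show τ e = (B (f e)).1 - (A e.1).1 - (if (A e.1).2 then ι e else 0)
    rw [← h2]
    unfold val
    ring
  have hcardF : ∀ c ∈ ((univ : Finset ((Fin n → ZMod p × Bool) × (Fin n → ZMod p × Bool))) ×ˢ
        (powersetCard (3 * n) (univ : Finset (Fin n × Fin D)))),
      (F c).card * p ^ (3 * n) = p ^ (n * D) := by
    intro c hc
    have h1 := (mem_powersetCard.1 (mem_product.1 hc).2).2
    have h2 := count_eq p c.2 (fun e => (c.1.2 (f e)).1 - (c.1.1 e.1).1 -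
      (if (c.1.1 e.1).2 then ι e else 0))
    rw [h1, Fintype.card_prod, Fintype.card_fin, Fintype.card_fin] at h2
    exact h2
  have h1 : p ^ (n * D) * p ^ (3 * n) ≤
      ((2 * p) ^ n * (2 * p) ^ n * 2 ^ (n * D)) * p ^ (n * D) := by
    calc p ^ (n * D) * p ^ (3 * n)
        = (univ : Finset (Fin n × Fin D → ZMod p)).card * p ^ (3 * n) := by
          rw [card_univ, Fintype.card_fun, ZMod.card, Fintype.card_prod, Fintype.card_fin,
            Fintype.card_fin]
      _ ≤ (∑ c ∈ ((univ : Finset ((Fin n → ZMod p × Bool) × (Fin n → ZMod p × Bool))) ×ˢ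
          (powersetCard (3 * n) (univ : Finset (Fin n × Fin D)))), (F c).card) * p ^ (3 * n) :=
          Nat.mul_le_mul_right _ ((card_le_card hsub).trans card_biUnion_le)
      _ = ∑ c ∈ ((univ : Finset ((Fin n → ZMod p × Bool) × (Fin n → ZMod p × Bool))) ×ˢ
          (powersetCard (3 * n) (univ : Finset (Fin n × Fin D)))), p ^ (n * D) := by
          rw [sum_mul]
          exact sum_congr rfl hcardF
      _ = ((2 * p) ^ n * (2 * p) ^ n * (n * D).choose (3 * n)) * p ^ (n * D) := by
          rw [sum_const, smul_eq_mul, card_product, card_univ, Fintype.card_prod,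
            Fintype.card_fun, Fintype.card_prod, ZMod.card, Fintype.card_bool, Fintype.card_fin,
            card_powersetCard, card_univ, Fintype.card_prod, Fintype.card_fin, Fintype.card_fin,
            mul_comm p 2]
      _ ≤ ((2 * p) ^ n * (2 * p) ^ n * 2 ^ (n * D)) * p ^ (n * D) := by
          apply Nat.mul_le_mul_right
          apply Nat.mul_le_mul_left
          exact Nat.choose_le_two_pow _ _
  have hp0 : 0 < p := hp.out.pos
  have h2 : p ^ (3 * n) ≤ (2 * p) ^ n * (2 * p) ^ n * 2 ^ (n * D) := by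
    apply Nat.le_of_mul_le_mul_right _ (show 0 < p ^ (n * D) by positivity)
    calc p ^ (3 * n) * p ^ (n * D) = p ^ (n * D) * p ^ (3 * n) := by ring
      _ ≤ _ := h1
  have h3 : (p ^ 3) ^ n ≤ (2 * p * (2 * p) * 2 ^ D) ^ n := by
    calc (p ^ 3) ^ n = p ^ (3 * n) := by rw [← pow_mul]
      _ ≤ _ := h2
      _ = (2 * p * (2 * p) * 2 ^ D) ^ n := by
        rw [mul_pow (2 * p * (2 * p)) (2 ^ D) n, mul_pow (2 * p) (2 * p) n, ← pow_mul 2 D n,
          mul_comm n D]
  have h4 : p ^ 3 ≤ 2 * p * (2 * p) * 2 ^ D := by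
    by_contra hlt
    push Not at hlt
    have := Nat.pow_lt_pow_left hlt (show n ≠ 0 by omega)
    omega
  have h5 : p ^ 2 * p ≤ p ^ 2 * (4 * 2 ^ D) := by
    calc p ^ 2 * p = p ^ 3 := by ring
      _ ≤ _ := h4
      _ = p ^ 2 * (4 * 2 ^ D) := by ring
  have h6 := Nat.le_of_mul_le_mul_left h5 (by positivity)
  omega

end Pool.Agent.L0h67.TT
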