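import Mathlib
import Pool.Agent.L0h67.TT.Deg

set_option autoImplicit false

namespace Pool.Agent.L0h67.TT

open Finset

/-- The number of functions with prescribed range on a set. -/
theorem count_fixed {α : Type} [Fintype α] [DecidableEq α] (n : ℕ) (R : Finset α)
    (B : Finset (Fin n)) :
    (univ.filter fun f : α → Fin n => ∀ x ∈ R, f x ∈ B).card * n ^ R.card =
      B.card ^ R.card * n ^ Fintype.card α := by
  classical
  have h1 : (univ.filter fun f : α → Fin n => ∀ x ∈ R, f x ∈ B) =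
      Fintype.piFinset (fun x => if x ∈ R then B else univ) := by
    ext f
    rw [mem_filter, Fintype.mem_piFinset]
    constructor
    · rintro ⟨-, h⟩ x
      by_cases hx : x ∈ R
      · rw [if_pos hx]
        exact h x hx
      · rw [if_neg hx]
        exact mem_univ _
    · intro h
      refine ⟨mem_univ _, fun x hx => ?_⟩
      have := h x
      rwa [if_pos hx] at this
  rw [h1, Fintype.card_piFinset]
  have h2 : ∀ x, (if x ∈ R then B else (univ : Finset (Fin n))).card =
      if x ∈ R then B.card else n := by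
    intro x
    split_ifs
    · rfl
    · rw [card_univ, Fintype.card_fin]
  rw [prod_congr rfl (fun x _ => h2 x), prod_ite, prod_const, prod_const, mul_assoc, ← pow_add]
  have h3 : (univ.filter fun x => x ∈ R) = R := by ext; simp
  have h4 : (univ.filter fun x : α => x ∉ R).card + R.card = Fintype.card α := by
    rw [← card_univ, ← card_filter_add_card_filter_not (s := (univ : Finset α)) (fun x => x ∈ R), h3]
    omega
  rw [h3, h4]

variable {n D : ℕ}

theorem count_edges (W : Finset (Fin n ⊕ Fin n)) (r : ℕ) :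
    (univ.filter fun f : Fin n × Fin D → Fin n => r ≤ (EW Prod.fst f W).card).card * n ^ r ≤
      (D * W.card).choose r * W.card ^ r * n ^ (n * D) := by
  classical
  set R0 : Finset (Fin n × Fin D) := W.toLeft ×ˢ univ with hR0
  have hR0card : R0.card ≤ D * W.card := by
    rw [hR0, card_product, card_univ, Fintype.card_fin, mul_comm]
    exact Nat.mul_le_mul_left _ card_toLeft_le
  have h1 : (univ.filter fun f : Fin n × Fin D → Fin n => r ≤ (EW Prod.fst f W).card) ⊆
      (powersetCard r R0).biUnion fun R => univ.filter fun f => ∀ x ∈ R, f x ∈ W.toRight := by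
    intro f hf
    rw [mem_filter] at hf
    obtain ⟨R, hR, hRc⟩ := exists_subset_card_eq hf.2
    refine mem_biUnion.2 ⟨R, mem_powersetCard.2 ⟨?_, hRc⟩, mem_filter.2 ⟨mem_univ _, ?_⟩⟩
    · intro x hx
      rw [hR0, mem_product, mem_toLeft]
      exact ⟨(mem_EW.1 (hR hx)).1, mem_univ _⟩
    · intro x hx
      rw [mem_toRight]
      exact (mem_EW.1 (hR hx)).2
  calc (univ.filter fun f : Fin n × Fin D → Fin n => r ≤ (EW Prod.fst f W).card).card * n ^ r
      ≤ (∑ R ∈ powersetCard r R0,
          (univ.filter fun f : Fin n × Fin D → Fin n => ∀ x ∈ R, f x ∈ W.toRight).card) * n ^ r :=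
        Nat.mul_le_mul_right _ ((card_le_card h1).trans card_biUnion_le)
    _ = ∑ R ∈ powersetCard r R0, W.toRight.card ^ r * n ^ (n * D) := by
        rw [sum_mul]
        refine sum_congr rfl fun R hR => ?_
        have hRc := (mem_powersetCard.1 hR).2
        have := count_fixed n R W.toRight
        rw [hRc, Fintype.card_prod, Fintype.card_fin, Fintype.card_fin] at this
        exact this
    _ = R0.card.choose r * (W.toRight.card ^ r * n ^ (n * D)) := by
        rw [sum_const, card_powersetCard, smul_eq_mul]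
    _ ≤ (D * W.card).choose r * (W.card ^ r * n ^ (n * D)) :=
        Nat.mul_le_mul (Nat.choose_le_choose _ hR0card)
          (Nat.mul_le_mul_right _ (Nat.pow_le_pow_left card_toRight_le _))
    _ = _ := by ring

theorem count_size (m r : ℕ) :
    (univ.filter fun f : Fin n × Fin D → Fin n =>
      ∃ W : Finset (Fin n ⊕ Fin n), W.card = m ∧ r ≤ (EW Prod.fst f W).card).card * n ^ r ≤
      (2 * n).choose m * ((D * m).choose r * m ^ r) * n ^ (n * D) := by
  classical
  have h1 : (univ.filter fun f : Fin n × Fin D → Fin n =>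
      ∃ W : Finset (Fin n ⊕ Fin n), W.card = m ∧ r ≤ (EW Prod.fst f W).card) ⊆
      (powersetCard m (univ : Finset (Fin n ⊕ Fin n))).biUnion fun W =>
        univ.filter fun f => r ≤ (EW Prod.fst f W).card := by
    intro f hf
    obtain ⟨W, hW, h2⟩ := (mem_filter.1 hf).2
    exact mem_biUnion.2 ⟨W, mem_powersetCard.2 ⟨subset_univ _, hW⟩,
      mem_filter.2 ⟨mem_univ _, h2⟩⟩
  calc _ ≤ (∑ W ∈ powersetCard m (univ : Finset (Fin n ⊕ Fin n)),
          (univ.filter fun f : Fin n × Fin D → Fin n => r ≤ (EW Prod.fst f W).card).card) *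
            n ^ r := Nat.mul_le_mul_right _ ((card_le_card h1).trans card_biUnion_le)
    _ ≤ ∑ W ∈ powersetCard m (univ : Finset (Fin n ⊕ Fin n)),
          (D * m).choose r * m ^ r * n ^ (n * D) := by
        rw [sum_mul]
        refine sum_le_sum fun W hW => ?_
        have hWc := (mem_powersetCard.1 hW).2
        have := count_edges (D := D) W r
        rw [hWc] at this
        exact this
    _ = _ := by
        rw [sum_const, card_powersetCard, smul_eq_mul, card_univ, Fintype.card_sum,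
          Fintype.card_fin, ← two_mul]
        ring

theorem inv_factorial (m : ℕ) : (m : ℝ) ^ m / (m.factorial : ℝ) ≤ 3 ^ m := by
  have h1 := Real.pow_div_factorial_le_exp (m : ℝ) (by positivity) m
  refine h1.trans ?_
  have h2 : Real.exp (m : ℝ) = Real.exp 1 ^ m := by
    rw [← Real.exp_nat_mul, mul_one]
  rw [h2]
  exact pow_le_pow_left₀ (Real.exp_pos 1).le (by have := Real.exp_one_lt_d9; linarith) m

theorem choose_le (N m : ℕ) (hm : 1 ≤ m) :
    ((N.choose m : ℕ) : ℝ) ≤ (3 * N / m) ^ m := by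
  have h1 := Nat.choose_le_pow_div (α := ℝ) m N
  have h2 := inv_factorial m
  have hm0 : (0 : ℝ) < (m : ℝ) ^ m := by positivity
  have hf : (0 : ℝ) < (m.factorial : ℝ) := by exact_mod_cast Nat.factorial_pos m
  calc ((N.choose m : ℕ) : ℝ) ≤ (N : ℝ) ^ m / (m.factorial : ℝ) := h1
    _ = ((N : ℝ) ^ m / (m : ℝ) ^ m) * ((m : ℝ) ^ m / (m.factorial : ℝ)) := by
        field_simp
    _ ≤ ((N : ℝ) ^ m / (m : ℝ) ^ m) * 3 ^ m :=
        mul_le_mul_of_nonneg_left h2 (by positivity)
    _ = (3 * N / m) ^ m := by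
        rw [← div_pow, ← mul_pow]
        congr 1
        ring

/-- The constant of the sparsity lemma. -/
noncomputable def cst (D t : ℕ) : ℝ := (1 / (4 * (162 * (D : ℝ) ^ 3))) ^ t

theorem cst_pos (D t : ℕ) (hD : 1 ≤ D) : 0 < cst D t := by
  unfold cst
  have : (1 : ℝ) ≤ D := by exact_mod_cast hD
  positivity

theorem num_bound (n D t m r : ℕ) (hD : 1 ≤ D) (ht : 1 ≤ t) (hm : 1 ≤ m) (hn : 1 ≤ n)
    (hr : r = m + m / t + 1) (hmc : (m : ℝ) ≤ cst D t * n) :
    (((2 * n).choose m : ℕ) : ℝ) * ((((D * m).choose r : ℕ) : ℝ) * ((m : ℝ) / n) ^ r) ≤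
      (1 / 4) ^ m := by
  have hD1 : (1 : ℝ) ≤ D := by exact_mod_cast hD
  have hm1 : (1 : ℝ) ≤ m := by exact_mod_cast hm
  have hn1 : (1 : ℝ) ≤ n := by exact_mod_cast hn
  set K : ℝ := 162 * (D : ℝ) ^ 3 with hK
  have hD3 : (1 : ℝ) ≤ (D : ℝ) ^ 3 := one_le_pow₀ hD1
  have hK1 : 1 ≤ K := by rw [hK]; linarith
  set x : ℝ := (m : ℝ) / n with hx
  have hx0 : 0 < x := by rw [hx]; positivity
  obtain ⟨j, hj⟩ : ∃ j, m / t = j := ⟨_, rfl⟩
  rw [hj] at hr
  have hxc : x ≤ (1 / (4 * K)) ^ t := by
    rw [hx, div_le_iff₀ (by linarith)]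
    exact hmc
  have hrm : m ≤ r := by omega
  have hr1 : 1 ≤ r := by omega
  have hA := choose_le (2 * n) m hm
  have hB := choose_le (D * m) r hr1
  have hB' : (((D * m).choose r : ℕ) : ℝ) ≤ (3 * D) ^ r := by
    refine hB.trans (pow_le_pow_left₀ (by positivity) ?_ r)
    rw [div_le_iff₀ (by exact_mod_cast hr1)]
    push_cast
    have : (m : ℝ) ≤ r := by exact_mod_cast hrm
    nlinarith
  have hr3 : r ≤ 3 * m := by
    have h1 : m / t ≤ m := Nat.div_le_self _ _
    rw [hj] at h1
    omega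
  have h3D : (1 : ℝ) ≤ 3 * D := by linarith
  have hC : (((D * m).choose r : ℕ) : ℝ) ≤ (3 * D) ^ (3 * m) :=
    hB'.trans (pow_le_pow_right₀ h3D hr3)
  have hmt : m ≤ t * (j + 1) := by
    have h1 := Nat.lt_mul_div_succ m (show 0 < t by omega)
    rw [hj] at h1
    omega
  calc (((2 * n).choose m : ℕ) : ℝ) * ((((D * m).choose r : ℕ) : ℝ) * x ^ r)
      ≤ (3 * ((2 * n : ℕ) : ℝ) / m) ^ m * ((3 * D) ^ (3 * m) * x ^ r) := by
        apply mul_le_mul hA _ (by positivity) (by positivity)
        exact mul_le_mul_of_nonneg_right hC (by positivity)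
    _ = K ^ m * x ^ (j + 1) := by
        have e1 : r = m + (j + 1) := by omega
        rw [e1, pow_add x, pow_mul (3 * (D : ℝ)) 3 m]
        have e2 : (3 * ((2 * n : ℕ) : ℝ) / m) ^ m * x ^ m = 6 ^ m := by
          rw [← mul_pow]
          congr 1
          rw [hx]
          push_cast
          field_simp
          ring
        have e3 : K ^ m = 6 ^ m * ((3 * (D : ℝ)) ^ 3) ^ m := by
          rw [← mul_pow, hK]
          congr 1
          ring
        calc (3 * ((2 * n : ℕ) : ℝ) / m) ^ m * (((3 * (D : ℝ)) ^ 3) ^ m * (x ^ m * x ^ (j + 1)))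
            = ((3 * ((2 * n : ℕ) : ℝ) / m) ^ m * x ^ m) * ((3 * (D : ℝ)) ^ 3) ^ m *
                x ^ (j + 1) := by ring
          _ = K ^ m * x ^ (j + 1) := by rw [e2, e3]
    _ ≤ K ^ (t * (j + 1)) * ((1 / (4 * K)) ^ t) ^ (j + 1) := by
        apply mul_le_mul (pow_le_pow_right₀ hK1 hmt) (pow_le_pow_left₀ hx0.le hxc _)
          (by positivity) (by positivity)
    _ = (1 / 4) ^ (t * (j + 1)) := by
        rw [← pow_mul, ← mul_pow]
        congr 1
        field_simp
    _ ≤ (1 / 4) ^ m := pow_le_pow_of_le_one (by norm_num) (by norm_num) hmt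

/-- Most functions define sparse graphs. -/
theorem count_sparse (n D t M : ℕ) (hD : 1 ≤ D) (ht : 1 ≤ t) (hn : 1 ≤ n)
    (hM : (M : ℝ) ≤ cst D t * n) :
    3 * (univ.filter fun f : Fin n × Fin D → Fin n => ∃ W : Finset (Fin n ⊕ Fin n),
      W.card ≤ M ∧ (t + 1) * W.card < t * (EW Prod.fst f W).card).card ≤ n ^ (n * D) := by
  classical
  have hn1 : (0 : ℝ) < n := by exact_mod_cast hn
  have hsub : (univ.filter fun f : Fin n × Fin D → Fin n => ∃ W : Finset (Fin n ⊕ Fin n),
      W.card ≤ M ∧ (t + 1) * W.card < t * (EW Prod.fst f W).card) ⊆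
      (range M).biUnion fun i => univ.filter fun f : Fin n × Fin D → Fin n =>
        ∃ W : Finset (Fin n ⊕ Fin n), W.card = i + 1 ∧
          (i + 1) + (i + 1) / t + 1 ≤ (EW Prod.fst f W).card := by
    intro f hf
    obtain ⟨W, h1, h2⟩ := (mem_filter.1 hf).2
    have hW : 1 ≤ W.card := by
      by_contra hcon
      have : W = ∅ := card_eq_zero.1 (by omega)
      subst this
      have h3 : EW Prod.fst f (∅ : Finset (Fin n ⊕ Fin n)) = ∅ := by
        ext e
        rw [mem_EW]
        simp
      rw [h3] at h2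
      simp at h2
    refine mem_biUnion.2 ⟨W.card - 1, mem_range.2 (by omega), mem_filter.2 ⟨mem_univ _, W,
      by omega, ?_⟩⟩
    rw [show W.card - 1 + 1 = W.card by omega]
    have h3 : W.card / t < (EW Prod.fst f W).card - W.card := by
      rw [Nat.div_lt_iff_lt_mul (by omega)]
      have h4 : (t + 1) * W.card = t * W.card + W.card := by ring
      rw [h4] at h2
      have h5 : ((EW Prod.fst f W).card - W.card) * t = t * (EW Prod.fst f W).card - t * W.card := by
        rw [Nat.mul_comm, Nat.mul_sub]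
      rw [h5]
      omega
    generalize W.card / t = z at *
    omega
  have hterm : ∀ i ∈ range M, (((univ.filter fun f : Fin n × Fin D → Fin n =>
        ∃ W : Finset (Fin n ⊕ Fin n), W.card = i + 1 ∧
          (i + 1) + (i + 1) / t + 1 ≤ (EW Prod.fst f W).card).card : ℕ) : ℝ) ≤
      (1 / 4) ^ (i + 1) * (n : ℝ) ^ (n * D) := by
    intro i hi
    have hiM : i + 1 ≤ M := mem_range.1 hi
    set r := (i + 1) + (i + 1) / t + 1 with hr
    have h1 := count_size (n := n) (D := D) (i + 1) r
    have h2 := num_bound n D t (i + 1) r hD ht (by omega) hn hr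
      (le_trans (by exact_mod_cast hiM) hM)
    have h3 : ((((univ.filter fun f : Fin n × Fin D → Fin n =>
        ∃ W : Finset (Fin n ⊕ Fin n), W.card = i + 1 ∧ r ≤ (EW Prod.fst f W).card).card *
          n ^ r : ℕ)) : ℝ) ≤
      (((2 * n).choose (i + 1) * ((D * (i + 1)).choose r * (i + 1) ^ r) * n ^ (n * D) : ℕ) : ℝ) := by
      exact_mod_cast h1
    push_cast at h3
    have hnr : (0 : ℝ) < (n : ℝ) ^ r := by positivity
    rw [← le_div_iff₀ hnr] at h3
    refine h3.trans ?_
    calc ((2 * n).choose (i + 1) : ℝ) * (((D * (i + 1)).choose r : ℝ) * ((i : ℝ) + 1) ^ r) *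
          (n : ℝ) ^ (n * D) / (n : ℝ) ^ r
        = (((2 * n).choose (i + 1) : ℕ) : ℝ) * ((((D * (i + 1)).choose r : ℕ) : ℝ) *
            (((i + 1 : ℕ) : ℝ) / n) ^ r) * (n : ℝ) ^ (n * D) := by
          rw [div_pow]
          push_cast
          field_simp
      _ ≤ (1 / 4) ^ (i + 1) * (n : ℝ) ^ (n * D) :=
          mul_le_mul_of_nonneg_right h2 (by positivity)
  have hsum : ∑ i ∈ range M, (1 / 4 : ℝ) ^ (i + 1) ≤ 1 / 3 := by
    have h1 : ∀ M : ℕ, ∑ i ∈ range M, (1 / 4 : ℝ) ^ (i + 1) = 1 / 3 - (1 / 3) * (1 / 4) ^ M := by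
      intro M
      induction M with
      | zero => simp
      | succ M ih =>
        rw [sum_range_succ, ih]
        ring
    rw [h1]
    have : (0 : ℝ) ≤ (1 / 3) * (1 / 4) ^ M := by positivity
    linarith
  have hfin : (((univ.filter fun f : Fin n × Fin D → Fin n => ∃ W : Finset (Fin n ⊕ Fin n),
      W.card ≤ M ∧ (t + 1) * W.card < t * (EW Prod.fst f W).card).card : ℕ) : ℝ) ≤
      (1 / 3) * (n : ℝ) ^ (n * D) := by
    calc _ ≤ ((∑ i ∈ range M, (univ.filter fun f : Fin n × Fin D → Fin n =>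
        ∃ W : Finset (Fin n ⊕ Fin n), W.card = i + 1 ∧
          (i + 1) + (i + 1) / t + 1 ≤ (EW Prod.fst f W).card).card : ℕ) : ℝ) := by
          exact_mod_cast (card_le_card hsub).trans card_biUnion_le
      _ ≤ ∑ i ∈ range M, (1 / 4 : ℝ) ^ (i + 1) * (n : ℝ) ^ (n * D) := by
          push_cast
          exact sum_le_sum hterm
      _ = (∑ i ∈ range M, (1 / 4 : ℝ) ^ (i + 1)) * (n : ℝ) ^ (n * D) := by rw [sum_mul]
      _ ≤ (1 / 3) * (n : ℝ) ^ (n * D) := mul_le_mul_of_nonneg_right hsum (by positivity)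
  have : (3 : ℝ) * (((univ.filter fun f : Fin n × Fin D → Fin n => ∃ W : Finset (Fin n ⊕ Fin n),
      W.card ≤ M ∧ (t + 1) * W.card < t * (EW Prod.fst f W).card).card : ℕ) : ℝ) ≤
      (n : ℝ) ^ (n * D) := by linarith
  exact_mod_cast this

end Pool.Agent.L0h67.TT
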