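import Mathlib
import Pool.Agent.L0h67.TT.Forth
import Pool.Agent.L0h67.TT.Sparse
import Pool.Agent.L0h67.TT.Cyc
import Pool.Agent.L0h67.TT.Soundness

set_option autoImplicit false

namespace Pool.Agent.L0h67.TT

open Finset

/-- A graph which is locally sparse and has few short cycles. -/
theorem exists_graph (n D t g M : ℕ) (hD : 1 ≤ D) (ht : 1 ≤ t) (hn : 1 ≤ n)
    (hM : (M : ℝ) ≤ cst D t * n) :
    ∃ f : Fin n × Fin D → Fin n, (∀ W : Finset (Fin n ⊕ Fin n), W.card ≤ M →
      t * (EW Prod.fst f W).card ≤ (t + 1) * W.card) ∧ numCyc g f ≤ 2 * cycBd D g := by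
  classical
  have h1 := count_sparse n D t M hD ht hn hM
  have h2 := count_many (n := n) (D := D) g hn
  by_contra hcon
  push Not at hcon
  have h3 : (univ : Finset (Fin n × Fin D → Fin n)) ⊆
      (univ.filter fun f : Fin n × Fin D → Fin n => ∃ W : Finset (Fin n ⊕ Fin n),
        W.card ≤ M ∧ (t + 1) * W.card < t * (EW Prod.fst f W).card) ∪
      (univ.filter fun f : Fin n × Fin D → Fin n => 2 * cycBd D g < numCyc g f) := by
    intro f _
    rw [mem_union, mem_filter, mem_filter]
    by_cases h4 : ∀ W : Finset (Fin n ⊕ Fin n), W.card ≤ M →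
        t * (EW Prod.fst f W).card ≤ (t + 1) * W.card
    · exact Or.inr ⟨mem_univ _, hcon f h4⟩
    · push Not at h4
      exact Or.inl ⟨mem_univ _, h4⟩
  have h4 := (card_le_card h3).trans (card_union_le _ _)
  rw [card_univ, Fintype.card_fun, Fintype.card_prod, Fintype.card_fin, Fintype.card_fin] at h4
  have h5 : 0 < n ^ (n * D) := by positivity
  omega

theorem core (δ : ℝ) (hδ : 0 < δ) : ∃ (q D : ℕ) (c : ℝ) (n0 : ℕ), 0 < q ∧ 0 < D ∧ 0 < c ∧
    ∀ n : ℕ, n0 ≤ n → ∃ (E : Type) (_ : Fintype E) (u v : E → Fin n) (π : E → Fin q → Fin q),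
      0 < Fintype.card E ∧ Fintype.card E ≤ D * n ∧
      (∀ e y, (univ.filter fun x => π e x = y).card ≤ 2) ∧
      (∀ A B : Fin n → Fin q, ((univ.filter fun e => π e (A (u e)) = B (v e)).card : ℝ) ≤
        δ * Fintype.card E) ∧
      ∀ k : ℕ, (k : ℝ) ≤ c * n → ∃ H, Consistent u v π k H := by
  classical
  -- the parameters
  obtain ⟨D, hD⟩ := exists_nat_ge (max (6 / δ) 1)
  have hD1 : (1 : ℝ) ≤ D := (le_max_right _ _).trans hD
  have hDδ : 6 ≤ δ * D := by
    have := (le_max_left _ _).trans hD
    rw [div_le_iff₀ hδ] at this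
    linarith
  have hD0 : 1 ≤ D := by exact_mod_cast hD1
  obtain ⟨p, hp1, hp2⟩ := Nat.exists_infinite_primes (4 * 2 ^ D + 1)
  have hpf : Fact p.Prime := ⟨hp2⟩
  have hpD : 4 * 2 ^ D < p := hp1
  have hDp : D < p := by
    have : D < 2 ^ D := Nat.lt_two_pow_self
    omega
  set m := p with hm
  set t := 12 * m with ht
  have hm1 : 1 ≤ m := hp2.one_lt.le
  have ht1 : 1 ≤ t := by omega
  set q := 2 * p with hq
  set C1 := cycBd D m with hC1
  set Z : ℕ := q * (12 * m + 2) + 1 with hZ
  have hc0 := cst_pos D t hD0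
  obtain ⟨n1, hn1⟩ := exists_nat_ge (6 / cst D t)
  obtain ⟨n2, hn2⟩ := exists_nat_ge (2 * δ * C1)
  refine ⟨q, D, cst D t / (2 * Z), max (max n1 n2) (2 * C1 + 1), by omega, hD0, by positivity, ?_⟩
  intro n hn
  have hnC : 2 * C1 + 1 ≤ n := (le_max_right _ _).trans hn
  have hn0 : 1 ≤ n := by omega
  have hn1' : 6 ≤ cst D t * n := by
    have h1 : (n1 : ℝ) ≤ n := by exact_mod_cast (le_max_left _ _).trans ((le_max_left _ _).trans hn)
    have h2 := hn1.trans h1
    rw [div_le_iff₀ hc0] at h2
    linarith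
  have hn2' : 2 * δ * C1 ≤ n := by
    have h1 : (n2 : ℝ) ≤ n := by exact_mod_cast (le_max_right _ _).trans ((le_max_left _ _).trans hn)
    exact hn2.trans h1
  set M := ⌊cst D t * n⌋₊ with hMdef
  have hM : (M : ℝ) ≤ cst D t * n := Nat.floor_le (by positivity)
  obtain ⟨f, hf1, hf2⟩ := exists_graph n D t m M hD0 ht1 hn0 hM
  obtain ⟨τ, hτ⟩ := exists_tau n D p hn0 hpD f (fun e => ((e.2 : ℕ) : ZMod p))
  -- the labels
  have hcardQ : Fintype.card (ZMod p × Bool) = q := by
    rw [Fintype.card_prod, ZMod.card, Fintype.card_bool, hq, mul_comm]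
  set ψ : ZMod p × Bool ≃ Fin q := Fintype.equivFinOfCardEq hcardQ with hψ
  set ι : {x // x ∉ del m f} → ZMod p := fun e => ((e.1.2 : ℕ) : ZMod p) with hι
  set τ' : {x // x ∉ del m f} → ZMod p := fun e => τ e.1 with hτ'
  have hcardE : Fintype.card {x // x ∉ del m f} + (del m f).card = n * D := by
    rw [Fintype.card_subtype_compl, Fintype.card_coe, Fintype.card_prod, Fintype.card_fin,
      Fintype.card_fin]
    have : (del m f).card ≤ n * D := by
      have := card_le_univ (del m f)
      rwa [Fintype.card_prod, Fintype.card_fin, Fintype.card_fin] at this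
    omega
  have hdel : (del m f).card ≤ 2 * C1 := (card_del m f).trans hf2
  have hval : 3 * (n : ℝ) ≤ δ * Fintype.card {x // x ∉ del m f} := by
    have h1 : (n : ℝ) * D ≤ Fintype.card {x // x ∉ del m f} + 2 * C1 := by
      have : n * D ≤ Fintype.card {x // x ∉ del m f} + 2 * C1 := by omega
      exact_mod_cast this
    have h2 : δ * ((n : ℝ) * D) ≤ δ * (Fintype.card {x // x ∉ del m f} + 2 * C1) :=
      mul_le_mul_of_nonneg_left h1 hδ.le
    have h3 : 6 * (n : ℝ) ≤ δ * ((n : ℝ) * D) := by
      calc 6 * (n : ℝ) ≤ (δ * D) * n := mul_le_mul_of_nonneg_right hDδ (by positivity)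
        _ = _ := by ring
    nlinarith
  refine ⟨{x // x ∉ del m f}, inferInstance, fun e => e.1.1, fun e => f e.1,
    fun e x => ψ (val ι τ' e (ψ.symm x), false), ?_, ?_, ?_, ?_, ?_⟩
  · have h1 : (0 : ℝ) < Fintype.card {x // x ∉ del m f} := by
      have : (1 : ℝ) ≤ n := by exact_mod_cast hn0
      by_contra hcon
      push Not at hcon
      nlinarith
    exact_mod_cast h1
  · calc Fintype.card {x // x ∉ del m f} ≤ n * D := by omega
      _ = D * n := by ring
  · -- every fibre has at most two elements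
    intro e y
    have h1 : (univ.filter fun x => ψ (val ι τ' e (ψ.symm x), false) = y).card ≤
        (univ : Finset Bool).card := by
      apply card_le_card_of_injOn (fun x => (ψ.symm x).2) (fun _ _ => mem_coe.2 (mem_univ _))
      intro x hx x' hx' hxx
      have e1 := (mem_filter.1 (mem_coe.1 hx)).2
      have e2 := (mem_filter.1 (mem_coe.1 hx')).2
      have e3 := ψ.injective (e1.trans e2.symm)
      have e4 := (Prod.mk.inj e3).1
      unfold val at e4
      dsimp only at hxx
      rw [hxx] at e4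
      have e5 : (ψ.symm x).1 = (ψ.symm x').1 := add_right_cancel (add_right_cancel e4)
      exact ψ.symm.injective (Prod.ext e5 hxx)
    rwa [card_univ, Fintype.card_bool] at h1
  · -- the value is small
    intro A B
    have h1 := hτ (fun i => ψ.symm (A i)) (fun i => ψ.symm (B i))
    have h2 : (univ.filter fun e : {x // x ∉ del m f} =>
        ψ (val ι τ' e (ψ.symm (A e.1.1)), false) = B (f e.1)).card ≤
        (univ.filter fun e : Fin n × Fin D =>
          (val (fun e => ((e.2 : ℕ) : ZMod p)) τ e (ψ.symm (A e.1)), false) =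
            ψ.symm (B (f e))).card := by
      apply card_le_card_of_injOn (fun e => e.1)
      · intro e he
        have he' := (mem_filter.1 (mem_coe.1 he)).2
        refine mem_coe.2 (mem_filter.2 ⟨mem_univ _, ?_⟩)
        rw [← he', Equiv.symm_apply_apply]
        rfl
      · exact fun _ _ _ _ h => Subtype.ext h
    have h3 : ((univ.filter fun e : {x // x ∉ del m f} =>
        ψ (val ι τ' e (ψ.symm (A e.1.1)), false) = B (f e.1)).card : ℝ) ≤ 3 * n := by
      have : (univ.filter fun e : {x // x ∉ del m f} =>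
        ψ (val ι τ' e (ψ.symm (A e.1.1)), false) = B (f e.1)).card ≤ 3 * n := by omega
      exact_mod_cast this
    exact h3.trans hval
  · -- local consistency
    intro k hk
    refine pebbles (ι := ι) (τ := τ') ?_ (noCyc m f) (by omega) M ?_ (fun z => ψ z)
      (fun x => ψ (x, false)) _ ?_ k ?_
    · intro e e' h1 h2
      have h3 : (e.1.2 : ℕ) = (e'.1.2 : ℕ) := by
        have h4 : (((e.1.2 : ℕ) : ZMod p)) = ((e'.1.2 : ℕ) : ZMod p) := h2
        rw [ZMod.natCast_eq_natCast_iff'] at h4
        rwa [Nat.mod_eq_of_lt (e.1.2.2.trans hDp), Nat.mod_eq_of_lt (e'.1.2.2.trans hDp)] at h4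
      exact Subtype.ext (Prod.ext h1 (Fin.ext h3))
    · intro W hW
      have h1 : (EW (fun e : {x // x ∉ del m f} => e.1.1) (fun e => f e.1) W).card ≤
          (EW Prod.fst f W).card := by
        apply card_le_card_of_injOn (fun e => e.1)
        · intro e he
          have he' := mem_EW.1 (mem_coe.1 he)
          exact mem_coe.2 (mem_EW.2 he')
        · exact fun _ _ _ _ h => Subtype.ext h
      calc 12 * m * (EW (fun e : {x // x ∉ del m f} => e.1.1) (fun e => f e.1) W).card
          ≤ 12 * m * (EW Prod.fst f W).card := Nat.mul_le_mul_left _ h1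
        _ ≤ (12 * m + 1) * W.card := hf1 W hW
    · intro e z
      show ψ (val ι τ' e (ψ.symm (ψ z)), false) = ψ (val ι τ' e z, false)
      rw [Equiv.symm_apply_apply]
    · rw [Fintype.card_fin]
      have h1 : (k : ℝ) * Z ≤ cst D t * n / 2 := by
        have hZ0 : (0 : ℝ) < Z := by
          rw [hZ]
          positivity
        calc (k : ℝ) * Z ≤ (cst D t / (2 * Z) * n) * Z := mul_le_mul_of_nonneg_right hk hZ0.le
          _ = cst D t * n / 2 := by
            field_simp
      have h2 : cst D t * n < M + 1 := Nat.lt_floor_add_one _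
      have h3 : ((k * Z + 2 : ℕ) : ℝ) ≤ M := by
        push_cast
        linarith
      have h4 : k * Z + 2 ≤ M := by exact_mod_cast h3
      calc q * ((12 * m + 2) * k) + k + 2 = k * Z + 2 := by rw [hZ]; ring
        _ ≤ M := h4

end Pool.Agent.L0h67.TT
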